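import Pool.Agent.Lib.MP_44a765_co.EV.Spec

/-!
# Module CLO: cloning (helper82)
-/

set_option autoImplicit false

open Finset

namespace Pool.Agent.Lib.MP44a765.EV

namespace CLOM

theorem rc_insert {W : Type} [DecidableEq W] {G : SimpleGraph W} {c : Sym2 W → ℕ} {w : W}
    {R : Finset W} (hR : RainbowClique G c R) (hw : ∀ x ∈ R, G.Adj w x)
    (h1 : ∀ x ∈ R, ∀ y ∈ R, c s(w, x) = c s(w, y) → x = y)
    (h2 : ∀ x ∈ R, ∀ p ∈ R, ∀ q ∈ R, p ≠ q → c s(w, x) ≠ c s(p, q)) :
    RainbowClique G c (insert w R) := by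
  constructor
  · intro a ha b hb hab
    rcases Finset.mem_insert.1 ha with rfl | ha'
    · rcases Finset.mem_insert.1 hb with rfl | hb'
      · exact absurd rfl hab
      · exact hw b hb'
    · rcases Finset.mem_insert.1 hb with rfl | hb'
      · exact (hw a ha').symm
      · exact hR.1 a ha' b hb' hab
  · have key : ∀ a ∈ insert w R, ∀ b ∈ insert w R, a ≠ b →
        (∃ x ∈ R, s(a, b) = s(w, x)) ∨ (a ∈ R ∧ b ∈ R) := by
      intro a ha b hb hab
      rcases Finset.mem_insert.1 ha with rfl | ha'
      · rcases Finset.mem_insert.1 hb with rfl | hb'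
        · exact absurd rfl hab
        · exact Or.inl ⟨b, hb', rfl⟩
      · rcases Finset.mem_insert.1 hb with rfl | hb'
        · exact Or.inl ⟨a, ha', Sym2.eq_swap⟩
        · exact Or.inr ⟨ha', hb'⟩
    intro a ha b hb a' ha' b' hb' hab hab' heq
    rcases key a ha b hb hab with ⟨x, hx, e⟩ | ⟨hra, hrb⟩
    · rcases key a' ha' b' hb' hab' with ⟨x', hx', e'⟩ | ⟨hra', hrb'⟩
      · rw [e, e'] at heq ⊢
        rw [h1 x hx x' hx' heq]
      · rw [e] at heq
        exact absurd heq (h2 x hx a' hra' b' hrb' hab')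
    · rcases key a' ha' b' hb' hab' with ⟨x', hx', e'⟩ | ⟨hra', hrb'⟩
      · rw [e'] at heq
        exact absurd heq.symm (h2 x' hx' a hra b hrb hab)
      · exact hR.2 a hra b hrb a' hra' b' hrb' hab hab' heq

theorem rc_map {V W : Type} (f : V ↪ W) {G : SimpleGraph V} {H : SimpleGraph W}
    {cG : Sym2 V → ℕ} {cH : Sym2 W → ℕ} {K : Finset V} (hK : RainbowClique G cG K)
    (hadj : ∀ a ∈ K, ∀ b ∈ K, G.Adj a b → H.Adj (f a) (f b))
    (hc : ∀ a ∈ K, ∀ b ∈ K, a ≠ b → cH s(f a, f b) = cG s(a, b)) :
    RainbowClique H cH (K.map f) := by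
  constructor
  · intro x hx y hy hxy
    obtain ⟨a, ha, rfl⟩ := Finset.mem_map.1 hx
    obtain ⟨b, hb, rfl⟩ := Finset.mem_map.1 hy
    exact hadj a ha b hb (hK.1 a ha b hb fun h => hxy (congrArg f h))
  · intro x hx y hy x' hx' y' hy' hxy hxy' heq
    obtain ⟨a, ha, rfl⟩ := Finset.mem_map.1 hx
    obtain ⟨b, hb, rfl⟩ := Finset.mem_map.1 hy
    obtain ⟨a', ha', rfl⟩ := Finset.mem_map.1 hx'
    obtain ⟨b', hb', rfl⟩ := Finset.mem_map.1 hy'
    have hab : a ≠ b := fun h => hxy (congrArg f h)
    have hab' : a' ≠ b' := fun h => hxy' (congrArg f h)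
    rw [hc a ha b hb hab, hc a' ha' b' hb' hab'] at heq
    exact congrArg (Sym2.map f) (hK.2 a ha b hb a' ha' b' hb' hab hab' heq)

/-- adjacency of the extended graph -/
def adjO {V : Type} (G : SimpleGraph V) (A : Finset V) : Option V → Option V → Prop
  | some u, some v => G.Adj u v
  | none, some x => x ∈ A
  | some x, none => x ∈ A
  | none, none => False

/-- the extended graph -/
def GO {V : Type} (G : SimpleGraph V) (A : Finset V) : SimpleGraph (Option V) where
  Adj := adjO G A
  symm := ⟨by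
    intro a b h
    cases a with
    | none => cases b with
      | none => exact h
      | some v => exact h
    | some u => cases b with
      | none => exact h
      | some v => exact (show G.Adj u v from h).symm⟩
  loopless := ⟨by
    intro a h
    cases a with
    | none => exact h
    | some u => exact (show G.Adj u u from h).ne rfl⟩

/-- colours of the extended graph -/
def cfO {V : Type} (c : Sym2 V → ℕ) (M : ℕ) (w : V) : Option V → Option V → ℕ
  | some u, some v => c s(u, v)
  | none, some x => M + 1 + c s(w, x)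
  | some x, none => M + 1 + c s(w, x)
  | none, none => 0

/-- the colouring of the extended graph -/
def cO {V : Type} (c : Sym2 V → ℕ) (M : ℕ) (w : V) : Sym2 (Option V) → ℕ :=
  Sym2.lift ⟨cfO c M w, by
    intro a b
    cases a with
    | none => cases b with
      | none => rfl
      | some v => rfl
    | some u => cases b with
      | none => rfl
      | some v => exact congrArg c Sym2.eq_swap⟩

theorem cO_ss {V : Type} (c : Sym2 V → ℕ) (M : ℕ) (w u v : V) :
    cO c M w s(some u, some v) = c s(u, v) := rfl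

theorem cO_ns {V : Type} (c : Sym2 V → ℕ) (M : ℕ) (w x : V) :
    cO c M w s(none, some x) = M + 1 + c s(w, x) := rfl

theorem noRainbow {V : Type} [DecidableEq V] (r : ℕ) (hr : 3 ≤ r) (G : SimpleGraph V)
    (c : Sym2 V → ℕ) (h : ¬ HasRainbow G c r) (M : ℕ) (w₁ : V) (A : Finset V)
    (hA : ∀ x, G.Adj w₁ x ↔ x ∈ A)
    (hne : ∀ x ∈ A, ∀ p ∈ A, ∀ q ∈ A, p ≠ q → c s(w₁, x) ≠ c s(p, q)) :
    ¬ HasRainbow (GO G A) (cO c M w₁) r := by
  rintro ⟨K, hK, hR⟩
  have hcard : (eraseNone K).card = (K.erase none).card := by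
    rw [← Finset.card_map Function.Embedding.some, Finset.map_some_eraseNone]
  have hmem : ∀ x, x ∈ eraseNone K → some x ∈ K := fun x hx => Finset.mem_eraseNone.1 hx
  have hRG : RainbowClique G c (eraseNone K) := by
    constructor
    · intro a ha b hb hab
      exact hR.1 (some a) (hmem a ha) (some b) (hmem b hb) fun h => hab (Option.some.inj h)
    · intro a ha b hb a' ha' b' hb' hab hab' heq
      have h1 := hR.2 (some a) (hmem a ha) (some b) (hmem b hb) (some a') (hmem a' ha')
        (some b') (hmem b' hb') (fun h => hab (Option.some.inj h))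
        (fun h => hab' (Option.some.inj h)) heq
      exact Sym2.map.injective (Option.some_injective V) h1
  by_cases hn : none ∈ K
  · have hc1 : (eraseNone K).card = r - 1 := by
      rw [hcard, Finset.card_erase_of_mem hn, hK]
    have hRA : ∀ x ∈ eraseNone K, x ∈ A := by
      intro x hx
      exact hR.1 none hn (some x) (hmem x hx) (fun h => nomatch h)
    have hw : w₁ ∉ eraseNone K := by
      intro h
      exact ((hA w₁).2 (hRA w₁ h)).ne rfl
    apply h
    refine ⟨insert w₁ (eraseNone K), ?_, ?_⟩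
    · rw [Finset.card_insert_of_notMem hw, hc1]
      omega
    · refine rc_insert hRG (fun x hx => (hA x).2 (hRA x hx)) ?_ ?_
      · intro x hx y hy hxy
        have h1 := hR.2 none hn (some x) (hmem x hx) none hn (some y) (hmem y hy)
          (fun h => nomatch h) (fun h => nomatch h)
          (by rw [cO_ns, cO_ns, hxy])
        rw [Sym2.eq_iff] at h1
        rcases h1 with ⟨_, h1⟩ | ⟨h1, _⟩
        · exact Option.some.inj h1
        · cases h1
      · intro x hx p hp q hq hpq
        exact hne x (hRA x hx) p (hRA p hp) q (hRA q hq) hpq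
  · apply h
    refine ⟨eraseNone K, ?_, hRG⟩
    rw [hcard, Finset.erase_eq_of_notMem hn, hK]

theorem map_inj_ne {V : Type} {e e' : Sym2 V} (h : e ≠ e') :
    e.map (some : V → Option V) ≠ e'.map some :=
  fun h' => h (Sym2.map.injective (Option.some_injective V) h')

theorem sat_ss {V : Type} [DecidableEq V] (r : ℕ) (G : SimpleGraph V)
    (c : Sym2 V → ℕ) (h : Saturated r G c) (M : ℕ) (w₁ : V) (A : Finset V)
    (u v : V) (huv : u ≠ v) (hadj : ¬ G.Adj u v) (c' : Sym2 (Option V) → ℕ)
    (hc' : ∀ e, e ≠ s(some u, some v) → c' e = cO c M w₁ e) :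
    HasRainbow (GO G A ⊔ SimpleGraph.edge (some u) (some v)) c' r := by
  obtain ⟨K, hK, hR⟩ := h.2 u v huv hadj (fun e => c' (e.map some)) (by
    intro e he
    have h1 := hc' (e.map some) (map_inj_ne he)
    rw [h1]
    induction e using Sym2.ind with
    | _ a b => rfl)
  refine ⟨K.map Function.Embedding.some, by rw [Finset.card_map]; exact hK, ?_⟩
  refine rc_map Function.Embedding.some hR ?_ ?_
  · intro a _ b _ hab
    rw [SimpleGraph.sup_adj] at hab ⊢
    rcases hab with hab | hab
    · exact Or.inl hab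
    · right
      rw [SimpleGraph.edge_adj] at hab ⊢
      obtain ⟨h1, h2⟩ := hab
      refine ⟨?_, fun h => h2 (Option.some.inj h)⟩
      rcases h1 with ⟨rfl, rfl⟩ | ⟨rfl, rfl⟩
      · exact Or.inl ⟨rfl, rfl⟩
      · exact Or.inr ⟨rfl, rfl⟩
  · intro a _ b _ _
    rfl

theorem sat_ns {V : Type} [DecidableEq V] (r : ℕ) (hr : 3 ≤ r) (G : SimpleGraph V)
    (c : Sym2 V → ℕ) (h : Saturated r G c) (M : ℕ) (hM : ∀ e, c e ≤ M) (w₁ w : V) (A : Finset V)
    (hA : ∀ x, G.Adj w x ↔ x ∈ A)
    (hty : ∀ x ∈ A, ∀ y ∈ A, (c s(w₁, x) = c s(w₁, y) ↔ c s(w, x) = c s(w, y)))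
    (v : V) (hv : v ∉ A) (hwv : w ≠ v) (c' : Sym2 (Option V) → ℕ)
    (hc' : ∀ e, e ≠ s(none, some v) → c' e = cO c M w₁ e) :
    HasRainbow (GO G A ⊔ SimpleGraph.edge none (some v)) c' r := by
  obtain ⟨β, P1, P2⟩ : ∃ β : ℕ, (∀ x ∈ A, c s(w, x) ≠ β →
      c' s(none, some v) ≠ M + 1 + c s(w₁, x)) ∧ ∀ e, c e ≠ β → c' s(none, some v) ≠ c e := by
    by_cases hx : ∃ x₀ ∈ A, c' s(none, some v) = M + 1 + c s(w₁, x₀)
    · obtain ⟨x₀, hx₀, hα⟩ := hx
      refine ⟨c s(w, x₀), ?_, ?_⟩
      · intro x hx hne heq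
        apply hne
        rw [← hty x hx x₀ hx₀]
        rw [hα] at heq
        omega
      · intro e _
        have := hM e
        rw [hα]
        omega
    · refine ⟨c' s(none, some v), ?_, ?_⟩
      · intro x hx' _ heq
        exact hx ⟨x, hx', heq⟩
      · intro e he heq
        exact he heq.symm
  have hnadj : ¬ G.Adj w v := fun h' => hv ((hA v).1 h')
  obtain ⟨K, hK, hR⟩ := h.2 w v hwv hnadj (Function.update c s(w, v) β)
    (fun e he => Function.update_of_ne he _ _)
  have hold : ∀ a b, a ≠ b → s(a, b) ≠ s(w, v) → (G ⊔ SimpleGraph.edge w v).Adj a b →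
      G.Adj a b := by
    intro a b _ hne hadj
    rw [SimpleGraph.sup_adj] at hadj
    rcases hadj with h1 | h1
    · exact h1
    · rw [SimpleGraph.edge_adj] at h1
      exact absurd (Sym2.eq_iff.2 h1.1) hne
  have hsub : ∀ L ⊆ K, (w ∉ L ∨ v ∉ L) → RainbowClique G c L := by
    intro L hL hL2
    have hne : ∀ a ∈ L, ∀ b ∈ L, s(a, b) ≠ s(w, v) := by
      intro a ha b hb hab
      rw [Sym2.eq_iff] at hab
      rcases hab with ⟨rfl, rfl⟩ | ⟨rfl, rfl⟩
      · rcases hL2 with h1 | h1
        · exact h1 ha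
        · exact h1 hb
      · rcases hL2 with h1 | h1
        · exact h1 hb
        · exact h1 ha
    constructor
    · intro a ha b hb hab
      exact hold a b hab (hne a ha b hb) (hR.1 a (hL ha) b (hL hb) hab)
    · intro a ha b hb a' ha' b' hb' hab hab' heq
      refine hR.2 a (hL ha) b (hL hb) a' (hL ha') b' (hL hb') hab hab' ?_
      rw [Function.update_of_ne (hne a ha b hb), Function.update_of_ne (hne a' ha' b' hb')]
      exact heq
  have hwK : w ∈ K := by
    by_contra hw
    exact h.1 ⟨K, hK, hsub K subset_rfl (Or.inl hw)⟩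
  have hvK : v ∈ K := by
    by_contra hw
    exact h.1 ⟨K, hK, hsub K subset_rfl (Or.inr hw)⟩
  have hRc := hsub (K.erase w) (Finset.erase_subset _ _) (Or.inl (Finset.notMem_erase w K))
  have hRA : ∀ x ∈ K.erase w, x ≠ v → x ∈ A := by
    intro x hx hxv
    obtain ⟨hxw, hxK⟩ := Finset.mem_erase.1 hx
    rw [← hA x]
    refine hold w x (Ne.symm hxw) ?_ (hR.1 w hwK x hxK (Ne.symm hxw))
    intro heq
    rw [Sym2.eq_iff] at heq
    rcases heq with ⟨_, h1⟩ | ⟨_, h1⟩
    · exact hxv h1
    · exact hxw h1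
  -- colours of `K` at `w`
  have hcw : ∀ x, x ≠ v → Function.update c s(w, v) β s(w, x) = c s(w, x) := by
    intro x hxv
    refine Function.update_of_ne ?_ _ _
    intro heq
    rw [Sym2.eq_iff] at heq
    rcases heq with ⟨_, h1⟩ | ⟨h1, _⟩
    · exact hxv h1
    · exact hwv h1
  have hcv : Function.update c s(w, v) β s(w, v) = β := Function.update_self _ _ _
  have hne' : ∀ x, x ≠ v → c' s(none, some x) = M + 1 + c s(w₁, x) := by
    intro x hxv
    rw [hc', cO_ns]
    intro heq
    rw [Sym2.eq_iff] at heq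
    rcases heq with ⟨_, h1⟩ | ⟨h1, _⟩
    · exact hxv (Option.some.inj h1)
    · cases h1
  have hss : ∀ a b, c' s(some a, some b) = c s(a, b) := by
    intro a b
    rw [hc', cO_ss]
    intro heq
    rw [Sym2.eq_iff] at heq
    rcases heq with ⟨h1, _⟩ | ⟨_, h1⟩
    · cases h1
    · cases h1
  have hβ1 : ∀ x ∈ K.erase w, x ≠ v → c s(w, x) ≠ β := by
    intro x hx hxv heq
    obtain ⟨hxw, hxK⟩ := Finset.mem_erase.1 hx
    have h1 := hR.2 w hwK x hxK w hwK v hvK (Ne.symm hxw) hwv (by rw [hcw x hxv, hcv, heq])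
    rw [Sym2.eq_iff] at h1
    rcases h1 with ⟨_, h1⟩ | ⟨h1, _⟩
    · exact hxv h1
    · exact hwv h1
  refine ⟨insert none ((K.erase w).map Function.Embedding.some), ?_, ?_⟩
  · rw [Finset.card_insert_of_notMem (by simp), Finset.card_map, Finset.card_erase_of_mem hwK, hK]
    omega
  · have hRm : RainbowClique (GO G A ⊔ SimpleGraph.edge none (some v)) c'
        ((K.erase w).map Function.Embedding.some) := by
      refine rc_map Function.Embedding.some hRc ?_ ?_
      · intro a _ b _ hab
        rw [SimpleGraph.sup_adj]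
        exact Or.inl hab
      · intro a _ b _ _
        exact hss a b
    refine rc_insert hRm ?_ ?_ ?_
    · intro x hx
      obtain ⟨t, ht, rfl⟩ := Finset.mem_map.1 hx
      rw [SimpleGraph.sup_adj]
      by_cases htv : t = v
      · right
        rw [SimpleGraph.edge_adj, htv]
        exact ⟨Or.inl ⟨rfl, rfl⟩, fun h => nomatch h⟩
      · left
        exact hRA t ht htv
    · intro x hx y hy hxy
      obtain ⟨a, ha, rfl⟩ := Finset.mem_map.1 hx
      obtain ⟨b, hb, rfl⟩ := Finset.mem_map.1 hy
      change c' s(none, some a) = c' s(none, some b) at hxy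
      by_cases hav : a = v
      · by_cases hbv : b = v
        · rw [hav, hbv]
        · rw [hav, hne' b hbv] at hxy
          exact absurd hxy (P1 b (hRA b hb hbv) (hβ1 b hb hbv))
      · by_cases hbv : b = v
        · rw [hbv, hne' a hav] at hxy
          exact absurd hxy.symm (P1 a (hRA a ha hav) (hβ1 a ha hav))
        · rw [hne' a hav, hne' b hbv] at hxy
          have h1 : c s(w₁, a) = c s(w₁, b) := by omega
          rw [hty a (hRA a ha hav) b (hRA b hb hbv)] at h1
          obtain ⟨haw, haK⟩ := Finset.mem_erase.1 ha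
          obtain ⟨hbw, hbK⟩ := Finset.mem_erase.1 hb
          have h2 := hR.2 w hwK a haK w hwK b hbK (Ne.symm haw) (Ne.symm hbw)
            (by rw [hcw a hav, hcw b hbv, h1])
          rw [Sym2.eq_iff] at h2
          rcases h2 with ⟨_, h2⟩ | ⟨h2, _⟩
          · rw [h2]
          · exact absurd h2.symm hbw
    · intro x hx p hp q hq hpq heq
      obtain ⟨t, ht, rfl⟩ := Finset.mem_map.1 hx
      obtain ⟨a, ha, rfl⟩ := Finset.mem_map.1 hp
      obtain ⟨b, hb, rfl⟩ := Finset.mem_map.1 hq
      change c' s(none, some t) = c' s(some a, some b) at heq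
      rw [hss a b] at heq
      by_cases htv : t = v
      · rw [htv] at heq
        refine P2 s(a, b) ?_ heq
        intro h1
        obtain ⟨haw, haK⟩ := Finset.mem_erase.1 ha
        obtain ⟨hbw, hbK⟩ := Finset.mem_erase.1 hb
        have hab : a ≠ b := fun h => hpq (congrArg _ h)
        have hne2 : s(a, b) ≠ s(w, v) := by
          intro h2
          rw [Sym2.eq_iff] at h2
          rcases h2 with ⟨h2, _⟩ | ⟨_, h2⟩
          · exact haw h2
          · exact hbw h2
        exact hne2 (hR.2 a haK b hbK w hwK v hvK hab hwv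
          (by rw [Function.update_of_ne hne2, hcv, h1]))
      · rw [hne' t htv] at heq
        have := hM s(a, b)
        omega

theorem edges {V : Type} [Fintype V] [DecidableEq V] (G : SimpleGraph V) (A : Finset V) :
    (GO G A).edgeSet.ncard = G.edgeSet.ncard + A.card := by
  have h1 : (GO G A).edgeSet = (Sym2.map some '' G.edgeSet) ∪
      ((fun x => s(none, some x)) '' (A : Set V)) := by
    ext e
    induction e using Sym2.ind with
    | _ a b =>
      rw [SimpleGraph.mem_edgeSet]
      constructor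
      · intro h
        cases a with
        | none => cases b with
          | none => exact absurd h (fun h => h)
          | some v => exact Or.inr ⟨v, h, rfl⟩
        | some u => cases b with
          | none => exact Or.inr ⟨u, h, Sym2.eq_swap⟩
          | some v => exact Or.inl ⟨s(u, v), h, rfl⟩
      · rintro (⟨e, he, h⟩ | ⟨x, hx, h⟩)
        · induction e using Sym2.ind with
          | _ u v =>
            rw [Sym2.map_mk] at h
            have h3 : G.Adj u v := he
            rcases Sym2.eq_iff.1 h with ⟨h1, h2⟩ | ⟨h1, h2⟩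
            · subst h1; subst h2; exact h3
            · subst h1; subst h2; exact h3.symm
        · rcases Sym2.eq_iff.1 h with ⟨h1, h2⟩ | ⟨h1, h2⟩
          · subst h1; subst h2; exact hx
          · subst h1; subst h2; exact hx
  have hdis : Disjoint (Sym2.map some '' G.edgeSet)
      ((fun x => s(none, some x)) '' (A : Set V)) := by
    rw [Set.disjoint_left]
    rintro e ⟨e', _, rfl⟩ ⟨x, _, h⟩
    induction e' using Sym2.ind with
    | _ u v =>
      rw [Sym2.map_mk] at h
      rcases Sym2.eq_iff.1 h with ⟨h1, _⟩ | ⟨h1, _⟩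
      · cases h1
      · cases h1
  rw [h1, Set.ncard_union_eq hdis (Set.toFinite _) (Set.toFinite _),
    Set.ncard_image_of_injective _ (Sym2.map.injective (Option.some_injective V)),
    Set.ncard_image_of_injective, Set.ncard_coe_finset]
  intro x y h
  rcases Sym2.eq_iff.1 h with ⟨_, h1⟩ | ⟨h1, _⟩
  · exact Option.some.inj h1
  · cases h1

end CLOM

open CLOM in
theorem specCLO : SpecCLO := by
  intro V _ _ r G c hr hsat w₁ w₂ A hw hA₁ hA₂ hty hne
  obtain ⟨M, hM⟩ : ∃ M, ∀ e, c e ≤ M := by
    obtain ⟨M, hM⟩ := (Set.finite_range c).bddAbove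
    exact ⟨M, fun e => hM ⟨e, rfl⟩⟩
  have hns : ∀ v, v ∉ A → ∀ c' : Sym2 (Option V) → ℕ,
      (∀ e, e ≠ s(none, some v) → c' e = cO c M w₁ e) →
      HasRainbow (GO G A ⊔ SimpleGraph.edge none (some v)) c' r := by
    intro v hv c' hc'
    by_cases h1 : w₁ = v
    · have h2 : w₂ ≠ v := fun h => hw (h1.trans h.symm)
      exact sat_ns r hr G c hsat M hM w₁ w₂ A hA₂ hty v hv h2 c' hc'
    · exact sat_ns r hr G c hsat M hM w₁ w₁ A hA₁ (fun _ _ _ _ => Iff.rfl) v hv h1 c' hc'
  refine ⟨GO G A, cO c M w₁, ⟨noRainbow r hr G c hsat.1 M w₁ A hA₁ hne, ?_⟩, edges G A⟩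
  intro u v huv hadj c' hc'
  cases u with
  | none => cases v with
    | none => exact absurd rfl huv
    | some v => exact hns v hadj c' hc'
  | some u => cases v with
    | none =>
      rw [SimpleGraph.edge_comm]
      refine hns u hadj c' ?_
      intro e he
      exact hc' e (fun h => he (h.trans Sym2.eq_swap))
    | some v =>
      exact sat_ss r G c hsat M w₁ A u v (fun h => huv (congrArg some h)) hadj c' hc'

end Pool.Agent.Lib.MP44a765.EV
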