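import Pool.Agent.Lib.MP_44a765_co.EV.Spec

/-!
# MP_44a765_co, EV: module EXC, there is a core

Two disjoint cliques of order `r - 2`, all edges of different colours.
-/

set_option autoImplicit false

open Finset

namespace Pool.Agent.Lib.MP44a765.EV

namespace EXCM

/-- Two disjoint cliques of order `s`. -/
def G2 (s : ℕ) : SimpleGraph (Fin (2 * s)) where
  Adj i j := i ≠ j ∧ (i.val < s ↔ j.val < s)
  symm := ⟨fun _ _ h => ⟨h.1.symm, h.2.symm⟩⟩
  loopless := ⟨fun _ h => h.1 rfl⟩

/-- The first clique. -/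
def A (s : ℕ) : Finset (Fin (2 * s)) := univ.filter fun i => i.val < s

/-- The second clique. -/
def B (s : ℕ) : Finset (Fin (2 * s)) := univ.filter fun i => ¬ i.val < s

theorem card_A (s : ℕ) : (A s).card = s := by
  have h1 : (A s).card = (range s).card := by
    refine card_bij (fun i _ => i.val) ?_ ?_ ?_
    · intro i hi
      exact mem_range.2 (mem_filter.1 hi).2
    · intro i _ j _ h
      exact Fin.ext h
    · intro k hk
      have hk' := mem_range.1 hk
      exact ⟨⟨k, by omega⟩, mem_filter.2 ⟨mem_univ _, hk'⟩, rfl⟩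
  rw [h1, card_range]

theorem card_B (s : ℕ) : (B s).card = s := by
  have h1 : (A s).card + (B s).card = (univ : Finset (Fin (2 * s))).card :=
    card_filter_add_card_filter_not _
  rw [card_A, card_univ, Fintype.card_fin] at h1
  omega

end EXCM

open EXCM in
theorem specEXC : SpecEXC := by
  intro r hr
  obtain ⟨s, hs⟩ : ∃ s, s = r - 2 := ⟨_, rfl⟩
  rw [← hs]
  obtain ⟨c, hc⟩ := exists_injective_nat (Sym2 (Fin (2 * s)))
  have hA : RainbowClique (G2 s) c (A s) := by
    refine ⟨fun a ha b hb hab => ⟨hab, ?_⟩, fun a _ b _ a' _ b' _ _ _ h => hc h⟩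
    exact iff_of_true (mem_filter.1 ha).2 (mem_filter.1 hb).2
  have hB : RainbowClique (G2 s) c (B s) := by
    refine ⟨fun a ha b hb hab => ⟨hab, ?_⟩, fun a _ b _ a' _ b' _ _ _ h => hc h⟩
    exact iff_of_false (mem_filter.1 ha).2 (mem_filter.1 hb).2
  refine ⟨G2 s, c, ?_, ?_, ?_⟩
  · -- no clique of order `s + 1`
    rintro ⟨K, hK, hcl, _⟩
    have hKne : K.Nonempty := card_pos.1 (by omega)
    obtain ⟨a, ha⟩ := hKne
    have hmem : ∀ b ∈ K, (a.val < s ↔ b.val < s) := by
      intro b hb
      by_cases hab : a = b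
      · rw [hab]
      · exact (hcl a ha b hb hab).2
    by_cases h : a.val < s
    · have hsub : K ⊆ A s := fun b hb => mem_filter.2 ⟨mem_univ _, (hmem b hb).1 h⟩
      have := card_le_card hsub
      rw [card_A] at this
      omega
    · have hsub : K ⊆ B s := fun b hb => mem_filter.2 ⟨mem_univ _, fun h' => h ((hmem b hb).2 h')⟩
      have := card_le_card hsub
      rw [card_B] at this
      omega
  · intro x
    by_cases h : x.val < s
    · exact ⟨B s, (card_B s).trans hs, hB, fun hx => (mem_filter.1 hx).2 h⟩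
    · exact ⟨A s, (card_A s).trans hs, hA, fun hx => h (mem_filter.1 hx).2⟩
  · intro α
    by_cases h : ∃ p ∈ A s, ∃ q ∈ A s, c s(p, q) = α
    · obtain ⟨p, hp, q, hq, hpq⟩ := h
      refine ⟨B s, (card_B s).trans hs, hB, ?_⟩
      intro p' hp' q' hq' _ h'
      have h1 : s(p', q') = s(p, q) := hc (h'.trans hpq.symm)
      have h2 : p' = p ∨ p' = q := by
        rw [Sym2.eq_iff] at h1
        rcases h1 with h1 | h1
        · exact Or.inl h1.1
        · exact Or.inr h1.1
      have h3 := (mem_filter.1 hp').2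
      rcases h2 with rfl | rfl
      · exact h3 (mem_filter.1 hp).2
      · exact h3 (mem_filter.1 hq).2
    · refine ⟨A s, (card_A s).trans hs, hA, ?_⟩
      intro p hp q hq _ h'
      exact h ⟨p, hp, q, hq, h'⟩

end Pool.Agent.Lib.MP44a765.EV
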