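import Pool.Agent.Lib.MP_44a765_co.EV.Spec

set_option autoImplicit false

open Finset

namespace Pool.Agent.Lib.MP44a765.EV

theorem specEXT : SpecEXT := by
  classical
  intro V _ _ r G₀ c₀ h0
  set P : ℕ → Prop := fun m => ∃ (G : SimpleGraph V) (c : Sym2 V → ℕ), G₀ ≤ G ∧
    (∀ e ∈ G₀.edgeSet, c e = c₀ e) ∧ ¬ HasRainbow G c r ∧ G.edgeSet.ncard = m with hP
  have hbound : ∀ G : SimpleGraph V, G.edgeSet.ncard ≤ (Set.univ : Set (Sym2 V)).ncard :=
    fun G => Set.ncard_le_ncard (Set.subset_univ _) (Set.toFinite _)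
  have hP0 : P G₀.edgeSet.ncard := ⟨G₀, c₀, le_refl _, fun _ _ => rfl, h0, rfl⟩
  have hspec : P (Nat.findGreatest P (Set.univ : Set (Sym2 V)).ncard) :=
    Nat.findGreatest_spec (hbound G₀) hP0
  obtain ⟨G, c, hG, hc, hno, hm⟩ := hspec
  refine ⟨G, c, hG, hc, hno, ?_⟩
  intro u v huv hadj c' hc'
  by_contra hcon
  have hnot : s(u, v) ∉ G.edgeSet := by
    rw [SimpleGraph.mem_edgeSet]
    exact hadj
  have hlt : G.edgeSet.ncard < (G ⊔ SimpleGraph.edge u v).edgeSet.ncard := by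
    apply Set.ncard_lt_ncard _ (Set.toFinite _)
    rw [Set.ssubset_iff_of_subset]
    · refine ⟨s(u, v), ?_, hnot⟩
      rw [SimpleGraph.mem_edgeSet, SimpleGraph.sup_adj, SimpleGraph.edge_adj]
      exact Or.inr ⟨Or.inl ⟨rfl, rfl⟩, huv⟩
    · exact SimpleGraph.edgeSet_mono le_sup_left
  have hP' : P (G ⊔ SimpleGraph.edge u v).edgeSet.ncard := by
    refine ⟨G ⊔ SimpleGraph.edge u v, c', hG.trans le_sup_left, ?_, hcon, rfl⟩
    intro e he
    rw [hc' e, hc e he]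
    rintro rfl
    exact hnot (SimpleGraph.edgeSet_mono hG he)
  rw [hm] at hlt
  exact Nat.findGreatest_is_greatest hlt (hbound _) hP'

end Pool.Agent.Lib.MP44a765.EV
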