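import Pool.Agent.Lib.MP_44a765_co.EV.Spec

set_option autoImplicit false

open Finset

namespace Pool.Agent.Lib.MP44a765.EV

namespace FINM

/-- a nonincreasing sequence of integers which is bounded below is eventually constant -/
theorem eventually_const (f : ℕ → ℤ) (B : ℤ) (n₀ : ℕ) (hmono : ∀ n, n₀ ≤ n → f (n + 1) ≤ f n)
    (hB : ∀ n, n₀ ≤ n → B ≤ f n) : ∃ (C : ℤ) (N : ℕ), ∀ n, N ≤ n → f n = C := by
  classical
  have hanti : ∀ m n, n₀ ≤ m → m ≤ n → f n ≤ f m := by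
    intro m n hm hmn
    induction n, hmn using Nat.le_induction with
    | base => exact le_rfl
    | succ n hn ih => exact (hmono n (hm.trans hn)).trans ih
  have hex : ∃ k : ℕ, ∃ n, n₀ ≤ n ∧ (f n - B).toNat = k := ⟨_, n₀, le_rfl, rfl⟩
  obtain ⟨n₁, hn₁, hk⟩ := Nat.find_spec hex
  refine ⟨f n₁, n₁, fun n hn => ?_⟩
  have h1 := hanti n₁ n hn₁ hn
  have h2 : Nat.find hex ≤ (f n - B).toNat := Nat.find_min' hex ⟨n, hn₁.trans hn, rfl⟩
  have h3 := hB n (hn₁.trans hn)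
  have h4 := hB n₁ hn₁
  omega

end FINM

theorem specFIN (hQQQ : SpecQQQ) (hLOW : SpecLOW) (hUPP : SpecUPP) (hMON : SpecMON) :
    SpecFIN := by
  intro r hr
  obtain ⟨n₁, hn₁⟩ := hMON r hr
  obtain ⟨q₀, hq⟩ := hQQQ r (2 * ar r + 1) hr
  obtain ⟨C, N, h⟩ := FINM.eventually_const (fun n => (sat n r : ℤ) - ar r * n)
    (-((ar r * q₀ : ℕ) : ℤ)) n₁ (fun n hn => by
      have h1 := hn₁ n hn
      have h2 : (sat (n + 1) r : ℤ) ≤ sat n r + ar r := by exact_mod_cast h1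
      push_cast
      linarith [mul_add (ar r : ℤ) n 1]) (fun n _ => by
      obtain ⟨G, c, hsat, hcard, -⟩ := hUPP r n hr
      obtain ⟨Q, hQ, hQw⟩ := hq (Fin n) G c hsat
      have h1 := (hLOW (Fin n) G Q (ar r) hQw).1
      rw [hcard, Fintype.card_fin] at h1
      have h2 : ar r * Q.card ≤ ar r * q₀ := Nat.mul_le_mul_left _ hQ
      have h3 : ((ar r * n : ℕ) : ℤ) ≤ ((sat n r + ar r * q₀ : ℕ) : ℤ) := by
        exact_mod_cast h1.trans (Nat.add_le_add_left h2 _)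
      push_cast at h3 ⊢
      linarith)
  refine ⟨C, N, fun n hn => ?_⟩
  have h1 := h n hn
  linarith

end Pool.Agent.Lib.MP44a765.EV
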