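import Pool.Agent.Lib.MP_44a765_co.EV.Spec

/-!
# MP_44a765_co, EV, JOI: a core and an independent set (helper94)
-/

set_option autoImplicit false

open Finset

namespace Pool.Agent.Lib.MP44a765.EV

namespace JOIM

variable {k m : ℕ}

/-- the join of the core and an independent set -/
def J (G : SimpleGraph (Fin k)) : SimpleGraph (Fin k ⊕ Fin m) where
  Adj a b := match a, b with
    | Sum.inl x, Sum.inl y => G.Adj x y
    | Sum.inl _, Sum.inr _ => True
    | Sum.inr _, Sum.inl _ => True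
    | Sum.inr _, Sum.inr _ => False
  symm := ⟨by
    rintro (x | u) (y | v) h
    · exact SimpleGraph.Adj.symm (G := G) h
    · trivial
    · trivial
    · exact h.elim⟩
  loopless := ⟨by
    rintro (x | u) h
    · exact G.loopless.irrefl x h
    · exact h⟩

open Classical in
/-- the colouring of the join -/
noncomputable def col (c : Sym2 (Fin k) → ℕ) (M : ℕ) (ι : Sym2 (Fin k ⊕ Fin m) → ℕ)
    (e : Sym2 (Fin k ⊕ Fin m)) : ℕ :=
  if h : ∃ e' : Sym2 (Fin k), e = e'.map Sum.inl then c h.choose else M + 1 + ι e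

lemma col_inl (c : Sym2 (Fin k) → ℕ) (M : ℕ) (ι : Sym2 (Fin k ⊕ Fin m) → ℕ) (x y : Fin k) :
    col c M ι s(Sum.inl x, Sum.inl y) = c s(x, y) := by
  have h : ∃ e' : Sym2 (Fin k), (s(Sum.inl x, Sum.inl y) : Sym2 (Fin k ⊕ Fin m)) =
      e'.map Sum.inl := ⟨s(x, y), by simp⟩
  rw [col, dif_pos h]
  congr 1
  apply Sym2.map.injective (f := (Sum.inl : Fin k → Fin k ⊕ Fin m)) Sum.inl_injective
  rw [← h.choose_spec]
  simp

lemma col_inr (c : Sym2 (Fin k) → ℕ) (M : ℕ) (ι : Sym2 (Fin k ⊕ Fin m) → ℕ) (x : Fin k)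
    (u : Fin m) : col c M ι s(Sum.inl x, Sum.inr u) = M + 1 + ι s(Sum.inl x, Sum.inr u) := by
  rw [col, dif_neg]
  rintro ⟨e', he⟩
  have h1 : (Sum.inr u : Fin k ⊕ Fin m) ∈ (e'.map Sum.inl) := by
    rw [← he]
    exact Sym2.mem_mk_right _ _
  rw [Sym2.mem_map] at h1
  obtain ⟨y, -, hy⟩ := h1
  exact Sum.inl_ne_inr hy

/-- no rainbow `K_r` in the join -/
lemma no_rainbow {r : ℕ} (hr : 3 ≤ r) {G : SimpleGraph (Fin k)} {c : Sym2 (Fin k) → ℕ}
    (hcore : ¬ HasRainbow G c (r - 1)) (M : ℕ) (ι : Sym2 (Fin k ⊕ Fin m) → ℕ) :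
    ¬ HasRainbow (J G) (col c M ι) r := by
  rintro ⟨K, hK, hadj, hcol⟩
  have h1 := Finset.card_toLeft_add_card_toRight (u := K)
  have h2 : K.toRight.card ≤ 1 := by
    rw [Finset.card_le_one]
    intro u hu v hv
    by_contra huv
    rw [Finset.mem_toRight] at hu hv
    have := hadj _ hu _ hv (fun h => huv (Sum.inr_injective h))
    exact this
  obtain ⟨T, hT, hTc⟩ := Finset.exists_subset_card_eq (s := K.toLeft) (n := r - 1) (by omega)
  refine hcore ⟨T, hTc, ?_, ?_⟩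
  · intro a ha b hb hab
    exact hadj _ (Finset.mem_toLeft.mp (hT ha)) _ (Finset.mem_toLeft.mp (hT hb))
      (fun h => hab (Sum.inl_injective h))
  · intro a ha b hb a' ha' b' hb' hab hab' hc
    have h3 := hcol _ (Finset.mem_toLeft.mp (hT ha)) _ (Finset.mem_toLeft.mp (hT hb)) _
      (Finset.mem_toLeft.mp (hT ha')) _ (Finset.mem_toLeft.mp (hT hb'))
      (fun h => hab (Sum.inl_injective h)) (fun h => hab' (Sum.inl_injective h))
      (by rw [col_inl, col_inl]; exact hc)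
    apply Sym2.map.injective (f := (Sum.inl : Fin k → Fin k ⊕ Fin m)) Sum.inl_injective
    simpa using h3

/-- the second part is independent in the extension -/
lemma indep {r : ℕ} (hr : 3 ≤ r) {G : SimpleGraph (Fin k)} {c : Sym2 (Fin k) → ℕ}
    (hcore : IsCore r G c) {M : ℕ} (hM : ∀ e, c e ≤ M) {ι : Sym2 (Fin k ⊕ Fin m) → ℕ}
    (hι : Function.Injective ι) {G' : SimpleGraph (Fin k ⊕ Fin m)}
    {c' : Sym2 (Fin k ⊕ Fin m) → ℕ} (hle : J G ≤ G')
    (hcc : ∀ e ∈ (J G).edgeSet, c' e = col c M ι e) (hno : ¬ HasRainbow G' c' r) (u v : Fin m)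
    (huv : G'.Adj (Sum.inr u) (Sum.inr v)) : False := by
  obtain ⟨α, hα⟩ : ∃ α, α = c' s(Sum.inr u, Sum.inr v) := ⟨_, rfl⟩
  have hne : u ≠ v := fun h => by
    rw [h] at huv
    exact G'.loopless.irrefl _ huv
  have hcross : ∀ (x : Fin k) (w : Fin m),
      c' s(Sum.inl x, Sum.inr w) = M + 1 + ι s(Sum.inl x, Sum.inr w) := by
    intro x w
    rw [hcc _ (by rw [SimpleGraph.mem_edgeSet]; trivial), col_inr]
  have hin : ∀ x y : Fin k, G.Adj x y → c' s(Sum.inl x, Sum.inl y) = c s(x, y) := by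
    intro x y hxy
    rw [hcc _ (by rw [SimpleGraph.mem_edgeSet]; exact hxy), col_inl]
  obtain ⟨T, hTc, hT, hT1, hT2⟩ : ∃ T : Finset (Fin k), T.card = r - 2 ∧ RainbowClique G c T ∧
      (∀ x ∈ T, ∀ w, (w = u ∨ w = v) → α ≠ M + 1 + ι s(Sum.inl x, Sum.inr w)) ∧
      ∀ p ∈ T, ∀ q ∈ T, p ≠ q → c s(p, q) ≠ α := by
    by_cases hex : ∃ (x₀ : Fin k) (w₀ : Fin m), α = M + 1 + ι s(Sum.inl x₀, Sum.inr w₀)
    · obtain ⟨x₀, w₀, h0⟩ := hex
      obtain ⟨T, h1, h2, h3⟩ := hcore.2.1 x₀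
      refine ⟨T, h1, h2, ?_, ?_⟩
      · intro x hx w _ hα'
        rw [h0] at hα'
        have h4 := hι (Nat.add_left_cancel hα')
        rw [Sym2.eq_iff] at h4
        rcases h4 with ⟨h5, -⟩ | ⟨h5, -⟩
        · rw [Sum.inl_injective h5] at h3
          exact h3 hx
        · exact Sum.inl_ne_inr h5
      · intro p _ q _ _ hcon
        have := hM s(p, q)
        omega
    · push Not at hex
      obtain ⟨T, h1, h2, h3⟩ := hcore.2.2 α
      exact ⟨T, h1, h2, fun x _ w _ => hex x w, h3⟩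
  obtain ⟨K, hKdef⟩ : ∃ K : Finset (Fin k ⊕ Fin m),
      K = insert (Sum.inr u) (insert (Sum.inr v) (T.map ⟨Sum.inl, Sum.inl_injective⟩)) := ⟨_, rfl⟩
  have hmem : ∀ a, a ∈ K ↔ a = Sum.inr u ∨ a = Sum.inr v ∨ ∃ x ∈ T, Sum.inl x = a := by
    intro a
    rw [hKdef]
    simp
  -- the pairs in `K`
  have hcls : ∀ a ∈ K, ∀ b ∈ K, a ≠ b → s(a, b) = s(Sum.inr u, Sum.inr v) ∨
      (∃ x ∈ T, ∃ w, (w = u ∨ w = v) ∧ s(a, b) = s(Sum.inl x, Sum.inr w)) ∨
      ∃ x ∈ T, ∃ y ∈ T, x ≠ y ∧ s(a, b) = s(Sum.inl x, Sum.inl y) := by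
    intro a ha b hb hab
    rw [hmem] at ha hb
    rcases ha with rfl | rfl | ⟨x, hx, rfl⟩
    · rcases hb with rfl | rfl | ⟨y, hy, rfl⟩
      · exact absurd rfl hab
      · exact Or.inl rfl
      · exact Or.inr (Or.inl ⟨y, hy, u, Or.inl rfl, Sym2.eq_swap⟩)
    · rcases hb with rfl | rfl | ⟨y, hy, rfl⟩
      · exact Or.inl Sym2.eq_swap
      · exact absurd rfl hab
      · exact Or.inr (Or.inl ⟨y, hy, v, Or.inr rfl, Sym2.eq_swap⟩)
    · rcases hb with rfl | rfl | ⟨y, hy, rfl⟩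
      · exact Or.inr (Or.inl ⟨x, hx, u, Or.inl rfl, rfl⟩)
      · exact Or.inr (Or.inl ⟨x, hx, v, Or.inr rfl, rfl⟩)
      · exact Or.inr (Or.inr ⟨x, hx, y, hy, fun h => hab (by rw [h]), rfl⟩)
  refine hno ⟨K, ?_, ?_, ?_⟩
  · rw [hKdef, Finset.card_insert_of_notMem, Finset.card_insert_of_notMem, Finset.card_map, hTc]
    · omega
    · simp
    · simp [hne]
  · intro a ha b hb hab
    rw [← SimpleGraph.mem_edgeSet]
    rcases hcls a ha b hb hab with h | ⟨x, hx, w, -, h⟩ | ⟨x, hx, y, hy, hxy, h⟩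
    · rw [h, SimpleGraph.mem_edgeSet]
      exact huv
    · rw [h, SimpleGraph.mem_edgeSet]
      exact hle (by trivial)
    · rw [h, SimpleGraph.mem_edgeSet]
      exact hle (show G.Adj x y from hT.1 x hx y hy hxy)
  · intro a ha b hb a' ha' b' hb' hab hab' hc
    rcases hcls a ha b hb hab with h | ⟨x, hx, w, hw, h⟩ | ⟨x, hx, y, hy, hxy, h⟩
    · rcases hcls a' ha' b' hb' hab' with h' | ⟨x', hx', w', hw', h'⟩ | ⟨x', hx', y', hy', hxy', h'⟩
      · rw [h, h']
      · rw [h, h', ← hα, hcross] at hc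
        exact absurd hc (hT1 x' hx' w' hw')
      · rw [h, h', ← hα, hin x' y' (hT.1 x' hx' y' hy' hxy')] at hc
        exact absurd hc.symm (hT2 x' hx' y' hy' hxy')
    · rcases hcls a' ha' b' hb' hab' with h' | ⟨x', hx', w', hw', h'⟩ | ⟨x', hx', y', hy', hxy', h'⟩
      · rw [h, h', ← hα, hcross] at hc
        exact absurd hc.symm (hT1 x hx w hw)
      · rw [h, h', hcross, hcross] at hc
        rw [h, h']
        exact hι (Nat.add_left_cancel hc)
      · rw [h, h', hcross, hin x' y' (hT.1 x' hx' y' hy' hxy')] at hc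
        have := hM s(x', y')
        omega
    · rcases hcls a' ha' b' hb' hab' with h' | ⟨x', hx', w', hw', h'⟩ | ⟨x', hx', y', hy', hxy', h'⟩
      · rw [h, h', ← hα, hin x y (hT.1 x hx y hy hxy)] at hc
        exact absurd hc (hT2 x hx y hy hxy)
      · rw [h, h', hcross, hin x y (hT.1 x hx y hy hxy)] at hc
        have := hM s(x, y)
        omega
      · rw [h, h', hin x y (hT.1 x hx y hy hxy), hin x' y' (hT.1 x' hx' y' hy' hxy')] at hc
        have h5 := hT.2 x hx y hy x' hx' y' hy' hxy hxy' hc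
        rw [h, h']
        have h6 := congrArg (Sym2.map (Sum.inl : Fin k → Fin k ⊕ Fin m)) h5
        simpa using h6

end JOIM

open JOIM in
theorem specJOI (hEXT : SpecEXT) : SpecJOI := by
  intro r k m G c hr hcore
  obtain ⟨M, hM⟩ : ∃ M, ∀ e, c e ≤ M :=
    ⟨Finset.univ.sup c, fun e => Finset.le_sup (Finset.mem_univ e)⟩
  obtain ⟨ι, hι⟩ := exists_injective_nat (Sym2 (Fin k ⊕ Fin m))
  obtain ⟨G', c', hle, hcc, hsat⟩ := hEXT (Fin k ⊕ Fin m) r (J G) (col c M ι)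
    (no_rainbow hr hcore.1 M ι)
  refine ⟨G', c', hsat, ?_⟩
  have hind := indep hr hcore hM hι hle hcc hsat.1
  have hsub : G'.edgeSet ⊆ (fun p : Fin k × (Fin k ⊕ Fin m) => s(Sum.inl p.1, p.2)) '' Set.univ := by
    intro e he
    induction e using Sym2.ind with
    | _ a b =>
      rw [SimpleGraph.mem_edgeSet] at he
      rcases a with x | u
      · exact ⟨(x, b), trivial, rfl⟩
      · rcases b with y | v
        · exact ⟨(y, Sum.inr u), trivial, Sym2.eq_swap⟩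
        · exact (hind u v he).elim
  have h1 := Set.ncard_le_ncard hsub (Set.toFinite _)
  have h2 := Set.ncard_image_le (f := fun p : Fin k × (Fin k ⊕ Fin m) =>
    (s(Sum.inl p.1, p.2) : Sym2 (Fin k ⊕ Fin m))) (s := Set.univ) (Set.toFinite _)
  rw [Set.ncard_univ, Nat.card_eq_fintype_card, Fintype.card_prod, Fintype.card_sum,
    Fintype.card_fin, Fintype.card_fin] at h2
  exact h1.trans h2

end Pool.Agent.Lib.MP44a765.EV
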