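import Pool.Agent.Lib.MP_44a765_co.EV.Spec

/-!
# MP_44a765_co, EV: module LOW (counting edges)
-/

set_option autoImplicit false

open Finset

namespace Pool.Agent.Lib.MP44a765.EV

namespace LOWM

open Classical in
theorem nb_eq {V : Type} (G : SimpleGraph V) (Q : Finset V) (v : V) :
    nb G Q v = ∑ x ∈ Q, if G.Adj v x then 1 else 0 := by
  unfold nb
  rw [Finset.card_filter]

theorem nb_univ {V : Type} [Fintype V] [DecidableEq V] (G : SimpleGraph V) (Q : Finset V) (v : V) :
    nb G univ v = nb G Q v + nb G Qᶜ v := by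
  rw [nb_eq, nb_eq, nb_eq, Finset.sum_add_sum_compl]

theorem swap {V : Type} (G : SimpleGraph V) (Q R : Finset V) :
    ∑ v ∈ Q, nb G R v = ∑ v ∈ R, nb G Q v := by
  classical
  simp only [nb_eq]
  rw [Finset.sum_comm]
  refine Finset.sum_congr rfl fun x _ => Finset.sum_congr rfl fun y _ => ?_
  simp only [G.adj_comm]

theorem sum_deg {V : Type} [Fintype V] (G : SimpleGraph V) :
    ∑ v, nb G univ v = 2 * G.edgeSet.ncard := by
  classical
  have h := G.sum_degrees_eq_twice_card_edges
  have h1 : G.edgeSet.ncard = G.edgeFinset.card := by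
    rw [Set.ncard_eq_toFinset_card']
    rfl
  rw [h1, ← h]
  refine Finset.sum_congr rfl fun v _ => ?_
  rw [← G.card_neighborFinset_eq_degree, SimpleGraph.neighborFinset_eq_filter]
  unfold nb
  congr

end LOWM

open LOWM in
theorem specLOW : SpecLOW := by
  intro V _ _ G Q a hQ
  classical
  have h0 := sum_deg G
  have h1 : ∑ v, nb G univ v = ∑ v ∈ Q, nb G univ v + ∑ v ∈ Qᶜ, nb G univ v :=
    (Finset.sum_add_sum_compl Q _).symm
  have h2 : ∑ v ∈ Qᶜ, nb G Q v ≤ ∑ v ∈ Q, nb G univ v := by
    rw [← swap G Q Qᶜ]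
    refine Finset.sum_le_sum fun v _ => ?_
    rw [nb_univ G Q v]
    omega
  have h3 : ∀ v ∈ Qᶜ, 2 * a + (if nb G Q v = a ∧ nb G Qᶜ v = 0 then 0 else 1) ≤
      nb G Q v + nb G univ v := by
    intro v hv
    have hv' : v ∉ Q := by simpa using hv
    have e1 := nb_univ G Q v
    have e2 := hQ v hv'
    by_cases hd : nb G univ v ≤ 2 * a + 1
    · have e3 := e2 hd
      split_ifs with hx
      · omega
      · by_cases hb : nb G Qᶜ v = 0
        · have : nb G Q v ≠ a := fun hh => hx ⟨hh, hb⟩
          omega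
        · omega
    · split_ifs <;> omega
  have h4 := Finset.sum_le_sum h3
  rw [Finset.sum_add_distrib, Finset.sum_add_distrib, Finset.sum_const, smul_eq_mul] at h4
  have h5 : ∑ v ∈ Qᶜ, (if nb G Q v = a ∧ nb G Qᶜ v = 0 then 0 else 1) =
      (Qᶜ.filter fun v => ¬ (nb G Q v = a ∧ nb G Qᶜ v = 0)).card := by
    rw [Finset.card_filter]
    refine Finset.sum_congr rfl fun v _ => ?_
    by_cases hx : nb G Q v = a ∧ nb G Qᶜ v = 0
    · simp only [hx, if_true, not_true_eq_false, if_false, and_self]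
    · simp only [hx, if_false, not_false_eq_true, if_true]
  rw [h5] at h4
  have h6 := Finset.card_add_card_compl Q
  have h7 := Finset.card_filter_add_card_filter_not (s := Qᶜ)
    (fun v => nb G Q v = a ∧ nb G Qᶜ v = 0)
  have h8 : Qᶜ.card * (2 * a) +
      (Qᶜ.filter fun v => ¬ (nb G Q v = a ∧ nb G Qᶜ v = 0)).card ≤ 2 * G.edgeSet.ncard := by
    linarith
  constructor
  · have h9 : a * Fintype.card V = a * Q.card + a * Qᶜ.card := by
      rw [← mul_add, h6]
    nlinarith
  · intro he
    refine ⟨Qᶜ.filter fun v => nb G Q v = a ∧ nb G Qᶜ v = 0, ?_, ?_⟩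
    · have h9 : a * Fintype.card V = a * Q.card + a * Qᶜ.card := by
        rw [← mul_add, h6]
      have h10 : (Qᶜ.filter fun v => ¬ (nb G Q v = a ∧ nb G Qᶜ v = 0)).card ≤ 2 * a * Q.card := by
        nlinarith
      omega
    · intro w hw
      rw [Finset.mem_filter] at hw
      obtain ⟨hw1, hw2, hw3⟩ := hw
      refine ⟨by simpa using hw1, hw2, fun x hx => ?_⟩
      by_contra hxQ
      unfold nb at hw3
      rw [Finset.card_eq_zero] at hw3
      have : x ∈ Qᶜ.filter fun x => G.Adj w x := by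
        rw [Finset.mem_filter]
        exact ⟨by simpa using hxQ, hx⟩
      rw [hw3] at this
      simp at this

end Pool.Agent.Lib.MP44a765.EV
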