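import Pool.Agent.Lib.MP_44a765_co.EV.Spec

set_option autoImplicit false

open Finset

namespace Pool.Agent.Lib.MP44a765.EV

theorem specMON (hTYP : SpecTYP) (hTWO : SpecTWO) (hQQQ : SpecQQQ) (hLOW : SpecLOW)
    (hCLO : SpecCLO) (hTRS : SpecTRS) (hUPP : SpecUPP) : SpecMON := by
  classical
  intro r hr
  obtain ⟨q₀, hq⟩ := hQQQ r (2 * ar r + 1) hr
  refine ⟨q₀ + 2 * ar r * q₀ + 2 ^ (q₀ + q₀ ^ 2 + q₀ ^ 3) + 1, fun n hn => ?_⟩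
  obtain ⟨G, c, hsat, hcard, hle⟩ := hUPP r n hr
  obtain ⟨Q, hQ, hQw⟩ := hq (Fin n) G c hsat
  obtain ⟨-, hL⟩ := hLOW (Fin n) G Q (ar r) hQw
  obtain ⟨W, hW1, hW2⟩ := hL (by rw [hcard, Fintype.card_fin]; exact hle)
  rw [Fintype.card_fin] at hW1
  have h1 : 2 ^ (Q.card + Q.card ^ 2 + Q.card ^ 3) ≤ 2 ^ (q₀ + q₀ ^ 2 + q₀ ^ 3) := by
    refine Nat.pow_le_pow_right (by norm_num) ?_
    have h2 := Nat.pow_le_pow_left hQ 2
    have h3 := Nat.pow_le_pow_left hQ 3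
    omega
  have h2 : 2 * ar r * Q.card ≤ 2 * ar r * q₀ := Nat.mul_le_mul_left _ hQ
  obtain ⟨w₁, hw₁, w₂, hw₂, hne, hst⟩ := hTYP (Fin n) G c Q W (by omega)
  obtain ⟨hQ1, hn1, ha1⟩ := hW2 w₁ hw₁
  obtain ⟨hQ2, hn2, ha2⟩ := hW2 w₂ hw₂
  set A := Q.filter (fun x => G.Adj w₁ x) with hA
  have hAc : A.card = ar r := hn1
  have hA1 : ∀ x, G.Adj w₁ x ↔ x ∈ A := by
    intro x
    rw [hA, mem_filter]
    exact ⟨fun h => ⟨ha1 x h, h⟩, fun h => h.2⟩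
  have hA2 : ∀ x, G.Adj w₂ x ↔ x ∈ A := by
    intro x
    rw [← hA1]
    constructor
    · intro h
      exact (hst.1 x (ha2 x h)).2 h
    · intro h
      exact (hst.1 x (ha1 x h)).1 h
  have hAQ : A ⊆ Q := filter_subset _ _
  have hnadj : ¬ G.Adj w₁ w₂ := fun h => hQ2 (ha1 _ h)
  have hstA : SameType G c A w₁ w₂ :=
    ⟨fun x hx => hst.1 x (hAQ hx), fun x hx y hy => hst.2.1 x (hAQ hx) y (hAQ hy),
      fun x hx p hp q hq => hst.2.2 x (hAQ hx) p (hAQ hp) q (hAQ hq)⟩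
  have h3 := hTWO (Fin n) r G c hr hsat w₁ w₂ A hne hnadj
    (fun x => ⟨fun h => ⟨(hA1 x).2 h, (hA2 x).2 h⟩, fun h => (hA1 x).1 h.1⟩) hstA
  have h4 : (A.filter fun x => c s(w₁, x) ≠ c s(w₂, x)) = A := by
    refine eq_of_subset_of_card_le (filter_subset _ _) ?_
    rw [hAc]
    exact h3
  have h5 : ∀ x ∈ A, c s(w₁, x) ≠ c s(w₂, x) := by
    intro x hx
    rw [← h4] at hx
    exact (mem_filter.1 hx).2
  obtain ⟨G', c', hG', hc'⟩ := hCLO (Fin n) r G c hr hsat w₁ w₂ A hne hA1 hA2 hstA.2.1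
    (fun x hx p hp q hq _ h => h5 x hx (h.trans ((hstA.2.2 x hx p hp q hq).1 h).symm))
  have h6 := (hTRS (Option (Fin n)) r (n + 1) G' c' (by simp) hG').1
  omega

end Pool.Agent.Lib.MP44a765.EV
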