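import Pool.Agent.Lib.MP_44a765_co.EV.Spec

/-!
# QQQ: a bounded set in which all vertices of small degree have at least `a` neighbours
-/

set_option autoImplicit false

open Finset

namespace Pool.Agent.Lib.MP44a765.EV

namespace QQQM

theorem nb_mono {V : Type} (G : SimpleGraph V) {Q Q' : Finset V} (h : Q ⊆ Q') (v : V) :
    nb G Q v ≤ nb G Q' v := by
  classical
  unfold nb
  refine Finset.card_le_card fun x hx => ?_
  rw [Finset.mem_filter] at hx ⊢
  exact ⟨h hx.1, hx.2⟩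

theorem step (hSTP : SpecSTP) (r D : ℕ) (hr : 3 ≤ r) (j : ℕ) :
    ∃ q₀ : ℕ, ∀ (V : Type) [Fintype V] [DecidableEq V] (G : SimpleGraph V)
      (c : Sym2 V → ℕ), Saturated r G c → ∃ Q : Finset V, Q.card ≤ q₀ ∧
      ∀ w, w ∉ Q → nb G univ w ≤ D → min j (ar r) ≤ nb G Q w := by
  induction j with
  | zero =>
    refine ⟨0, fun V _ _ G c _ => ⟨∅, by simp, fun w _ _ => ?_⟩⟩
    simp
  | succ j ih =>
    obtain ⟨q, hq⟩ := ih
    refine ⟨q + (D + 1) * 2 ^ (q + q ^ 2 + q ^ 3), fun V _ _ G c hS => ?_⟩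
    obtain ⟨Q, hQ, hQ2⟩ := hq V G c hS
    obtain ⟨Q', hsub, hcard, hstep⟩ := hSTP r D q hr V G c hS Q hQ
    refine ⟨Q', hcard, fun w hw hD => ?_⟩
    have h1 : w ∉ Q := fun h => hw (hsub h)
    have h2 := hQ2 w h1 hD
    have h3 := nb_mono G hsub w
    by_cases h : nb G Q w < ar r
    · have h4 := hstep w hw hD h
      omega
    · omega

end QQQM

theorem specQQQ (hSTP : SpecSTP) : SpecQQQ := by
  intro r D hr
  obtain ⟨q₀, h⟩ := QQQM.step hSTP r D hr (ar r)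
  refine ⟨q₀, fun V _ _ G c hS => ?_⟩
  obtain ⟨Q, hQ, hQ2⟩ := h V G c hS
  refine ⟨Q, hQ, fun w hw hD => ?_⟩
  have := hQ2 w hw hD
  rwa [min_self] at this

end Pool.Agent.Lib.MP44a765.EV
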