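import Pool.Agent.Lib.MP_44a765_co.EV.Spec

/-!
# Module STP: one step in the construction of `Q`
-/

set_option autoImplicit false

open Finset

namespace Pool.Agent.Lib.MP44a765.EV

namespace STPM

/-- independent sets of vertices whose common neighbours are in `Q` -/
def Ind {V : Type} (G : SimpleGraph V) (Q W : Finset V) : Prop :=
  ∀ w ∈ W, ∀ w' ∈ W, w ≠ w' → ¬ G.Adj w w' ∧ ∀ x, G.Adj w x → G.Adj w' x → x ∈ Q

end STPM

open STPM in
theorem specSTP (hTYP : SpecTYP) (hTWO : SpecTWO) : SpecSTP := by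
  classical
  intro r D q hr V _ _ G c hsat Q hQ
  obtain ⟨S, hS⟩ : ∃ S : Finset V, S = univ.filter (fun w => w ∉ Q ∧ nb G univ w ≤ D ∧
    nb G Q w < ar r) := ⟨_, rfl⟩
  have hmemS : ∀ w, w ∈ S ↔ w ∉ Q ∧ nb G univ w ≤ D ∧ nb G Q w < ar r := by
    intro w
    rw [hS, mem_filter]
    simp
  obtain ⟨W, hW, hmax⟩ := (S.powerset.filter (fun W => Ind G Q W)).exists_max_image card
    ⟨∅, by
      rw [mem_filter, mem_powerset]
      exact ⟨empty_subset _, fun w hw => absurd hw (notMem_empty w)⟩⟩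
  rw [mem_filter, mem_powerset] at hW
  obtain ⟨hWS, hInd⟩ := hW
  -- the size of `W`
  have hWcard : W.card ≤ 2 ^ (q + q ^ 2 + q ^ 3) := by
    by_contra hlt
    push Not at hlt
    have h1 : 2 ^ (Q.card + Q.card ^ 2 + Q.card ^ 3) < W.card := by
      refine lt_of_le_of_lt ?_ hlt
      refine Nat.pow_le_pow_right (by norm_num) ?_
      exact Nat.add_le_add (Nat.add_le_add hQ (Nat.pow_le_pow_left hQ 2)) (Nat.pow_le_pow_left hQ 3)
    obtain ⟨w₁, hw₁, w₂, hw₂, hne, hty⟩ := hTYP V G c Q W h1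
    obtain ⟨hnadj, hcom⟩ := hInd w₁ hw₁ w₂ hw₂ hne
    obtain ⟨t1, t2, t3⟩ := hty
    have hA : ∀ x, x ∈ Q.filter (fun x => G.Adj w₁ x) ↔ G.Adj w₁ x ∧ G.Adj w₂ x := by
      intro x
      rw [mem_filter]
      constructor
      · rintro ⟨h2, h3⟩
        exact ⟨h3, (t1 x h2).1 h3⟩
      · rintro ⟨h2, h3⟩
        exact ⟨hcom x h2 h3, h2⟩
    have hAQ : ∀ x, x ∈ Q.filter (fun x => G.Adj w₁ x) → x ∈ Q := fun x hx => (mem_filter.1 hx).1
    have h2 := hTWO V r G c hr hsat w₁ w₂ (Q.filter fun x => G.Adj w₁ x) hne hnadj hA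
      ⟨fun x hx => t1 x (hAQ x hx), fun x hx y hy => t2 x (hAQ x hx) y (hAQ y hy),
        fun x hx p hp q hq => t3 x (hAQ x hx) p (hAQ p hp) q (hAQ q hq)⟩
    have h3 := ((hmemS w₁).1 (hWS hw₁)).2.2
    have h4 : ((Q.filter fun x => G.Adj w₁ x).filter fun x => c s(w₁, x) ≠ c s(w₂, x)).card ≤
        nb G Q w₁ := by
      unfold nb
      refine card_le_card fun x hx => ?_
      rw [mem_filter, mem_filter] at hx
      rw [mem_filter]
      exact hx.1
    omega
  -- the set `Q'`
  obtain ⟨N, hN⟩ : ∃ N : V → Finset V, N = fun w => insert w (univ.filter fun x => G.Adj w x) :=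
    ⟨_, rfl⟩
  have hNcard : ∀ w ∈ W, (N w).card ≤ D + 1 := by
    intro w hw
    have h1 := ((hmemS w).1 (hWS hw)).2.1
    rw [hN]
    refine (card_insert_le _ _).trans ?_
    have h2 : (univ.filter fun x => G.Adj w x).card ≤ nb G univ w := by
      unfold nb
      refine card_le_card fun x hx => ?_
      rw [mem_filter] at hx ⊢
      exact hx
    omega
  have hself : ∀ w ∈ W, w ∈ W.biUnion N := fun w hw => by
    rw [mem_biUnion]
    exact ⟨w, hw, by rw [hN]; exact mem_insert_self _ _⟩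
  have hnbr : ∀ w ∈ W, ∀ x, G.Adj w x → x ∈ W.biUnion N := fun w hw x hx => by
    rw [mem_biUnion]
    refine ⟨w, hw, ?_⟩
    rw [hN]
    exact mem_insert_of_mem (mem_filter.2 ⟨mem_univ _, hx⟩)
  refine ⟨Q ∪ W.biUnion N, subset_union_left, ?_, ?_⟩
  · have h1 : (W.biUnion N).card ≤ W.card * (D + 1) := card_biUnion_le_card_mul W N (D + 1) hNcard
    have h2 : W.card * (D + 1) ≤ (D + 1) * 2 ^ (q + q ^ 2 + q ^ 3) := by
      rw [mul_comm]
      exact Nat.mul_le_mul_left _ hWcard
    have h3 := card_union_le Q (W.biUnion N)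
    omega
  · intro w hw hD ha
    rw [mem_union, not_or] at hw
    have hwS : w ∈ S := (hmemS w).2 ⟨hw.1, hD, ha⟩
    have hwW : w ∉ W := fun h => hw.2 (hself w h)
    have hnad : ∀ w' ∈ W, ¬ G.Adj w' w := fun w' hw' h => hw.2 (hnbr w' hw' w h)
    obtain ⟨w', hw', x, hx1, hx2, hxQ⟩ : ∃ w' ∈ W, ∃ x, G.Adj w x ∧ G.Adj w' x ∧ x ∉ Q := by
      by_contra hno
      push Not at hno
      have h1 : Ind G Q (insert w W) := by
        intro u hu u' hu' hne
        rw [mem_insert] at hu hu'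
        rcases hu with hu | hu
        · rcases hu' with hu' | hu'
          · exact absurd (hu.trans hu'.symm) hne
          · rw [hu]
            exact ⟨fun h => hnad u' hu' h.symm, fun x h2 h3 => hno u' hu' x h2 h3⟩
        · rcases hu' with hu' | hu'
          · rw [hu']
            exact ⟨fun h => hnad u hu h, fun x h2 h3 => hno u hu x h3 h2⟩
          · exact hInd u hu u' hu' hne
      have h2 := hmax (insert w W) (by
        rw [mem_filter, mem_powerset]
        exact ⟨insert_subset hwS hWS, h1⟩)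
      rw [card_insert_of_notMem hwW] at h2
      omega
    have hxQ' : x ∈ Q ∪ W.biUnion N := mem_union_right _ (hnbr w' hw' x hx2)
    unfold nb
    rw [← card_insert_of_notMem (a := x) (s := Q.filter fun x => G.Adj w x)
      (fun h => hxQ (mem_filter.1 h).1)]
    refine card_le_card fun y hy => ?_
    rw [mem_insert] at hy
    rcases hy with hy | hy
    · rw [hy]
      exact mem_filter.2 ⟨hxQ', hx1⟩
    · rw [mem_filter] at hy ⊢
      exact ⟨mem_union_left _ hy.1, hy.2⟩

end Pool.Agent.Lib.MP44a765.EV
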