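import Pool.Agent.Lib.MP_44a765_co.Defs

/-!
# MP_44a765_co: the rainbow saturation number of `K_r` is eventually linear

THEOREM (`SpecFIN`).  For every `r ≥ 3` there are `a`, `C` and `n₀` with `sat n r = a n + C` for all
`n ≥ n₀`; here `a = ar r` is the least order of a core (`IsCore`): a finite edge coloured graph without
rainbow `K_(r-1)` which for every vertex `x` and every colour `α` has a rainbow `K_(r-2)` without `x`
and one without the colour `α`.

HOW TO WORK.  Module XXX: file `Pool/Agent/Lib/MP_44a765_co/EV/XXX.lean`, import only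
`Pool.Agent.Lib.MP_44a765_co.EV.Spec`, namespace `Pool.Agent.Lib.MP44a765.EV`, theorem
`specXXX (hYYY : SpecYYY) .. : SpecXXX` with the hypotheses in the order of deps; private lemmas in a
namespace XXXM.  In the docstrings `a = ar r`, `N v` is the set of neighbours of `v`, `v x` the edge
`s(v, x)`, `c(v x)` its colour, `T` a set of `r - 2` vertices.
-/

set_option autoImplicit false

open Finset

namespace Pool.Agent.Lib.MP44a765.EV

/-- the structure of which `ar r` is the least order -/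
def IsCore {V : Type} (r : ℕ) (G : SimpleGraph V) (c : Sym2 V → ℕ) : Prop :=
  ¬ HasRainbow G c (r - 1) ∧
  (∀ x : V, ∃ K : Finset V, K.card = r - 2 ∧ RainbowClique G c K ∧ x ∉ K) ∧
  ∀ α : ℕ, ∃ K : Finset V, K.card = r - 2 ∧ RainbowClique G c K ∧
    ∀ p ∈ K, ∀ q ∈ K, p ≠ q → c s(p, q) ≠ α

/-- the least order of a core -/
noncomputable def ar (r : ℕ) : ℕ :=
  sInf {k | ∃ (G : SimpleGraph (Fin k)) (c : Sym2 (Fin k) → ℕ), IsCore r G c}

open Classical in
/-- the number of neighbours of `v` in `Q` -/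
noncomputable def nb {V : Type} (G : SimpleGraph V) (Q : Finset V) (v : V) : ℕ :=
  (Q.filter fun x => G.Adj v x).card

/-- `w₁` and `w₂` have the same type with respect to `Q` -/
def SameType {V : Type} (G : SimpleGraph V) (c : Sym2 V → ℕ) (Q : Finset V) (w₁ w₂ : V) : Prop :=
  (∀ x ∈ Q, (G.Adj w₁ x ↔ G.Adj w₂ x)) ∧
  (∀ x ∈ Q, ∀ y ∈ Q, (c s(w₁, x) = c s(w₁, y) ↔ c s(w₂, x) = c s(w₂, y))) ∧
  ∀ x ∈ Q, ∀ p ∈ Q, ∀ q ∈ Q, (c s(w₁, x) = c s(p, q) ↔ c s(w₂, x) = c s(p, q))

/-- TRC (deps: none; 60 lines).  Transport of a core along `V ≃ Fin (card V)`, then `Nat.sInf_le`. -/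
def SpecTRC : Prop :=
  ∀ (V : Type) [Fintype V] (r : ℕ) (G : SimpleGraph V) (c : Sym2 V → ℕ), IsCore r G c →
    ar r ≤ Fintype.card V

/-- EXC (deps: none; 120 lines).  There is a core.
Proof.  Two disjoint cliques of order `s = r - 2 ≥ 1` without edges between them, all edges of
different colours (`V = Fin 2 × Fin s`, transported to `Fin (2 s)`, `c` any injective map from the
finite type `Sym2 V` to `ℕ`).  There is no clique of order `r - 1 = s + 1` at all (its vertices would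
have the same first coordinate).  A vertex `x`: take the other clique.  A colour `α`: it occurs at most
once, take a clique in which it does not occur. -/
def SpecEXC : Prop :=
  ∀ r : ℕ, 3 ≤ r → ∃ (G : SimpleGraph (Fin (2 * (r - 2)))) (c : Sym2 (Fin (2 * (r - 2))) → ℕ),
    IsCore r G c

/-- TYP (deps: none; 90 lines).  Pigeonhole.
Proof.  To `w` assign the subset `{x | w ~ x}` of `Q`, the subset `{(x, y) | c(w x) = c(w y)}` of
`Q × Q` and the subset `{(x, p, q) | c(w x) = c(p q)}` of `Q × Q × Q`: at most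
`2 ^ (|Q| + |Q| ^ 2 + |Q| ^ 3)` values
(`Finset.exists_ne_map_eq_of_card_lt_of_maps_to` with the product of the powersets). -/
def SpecTYP : Prop :=
  ∀ (V : Type) [DecidableEq V] (G : SimpleGraph V) (c : Sym2 V → ℕ) (Q W : Finset V),
    2 ^ (Q.card + Q.card ^ 2 + Q.card ^ 3) < W.card →
    ∃ w₁ ∈ W, ∃ w₂ ∈ W, w₁ ≠ w₂ ∧ SameType G c Q w₁ w₂

/-- TWO (deps: TRC; 180 lines).  The key lemma: two nonadjacent vertices of the same type with respect
to their set `A` of common neighbours give a core on `A'' = {x ∈ A | c(w₁ x) ≠ c(w₂ x)}`.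
Proof.  Let `G''` be the graph on the subtype `{x // x ∈ A''}` in which `x, y` are adjacent if they are
adjacent in `G` and `c(w₁ x) ≠ c(w₁ y)`; `c''` is the restriction of `c`.  It is a core:
(a) For every colour `α` there is `T ⊆ A''` with `r - 2` elements, a rainbow clique of `G''`, in which
`α` does not occur, and with `c(w₁ x) ≠ α` for all `x ∈ T`.  Let `c' = c` except
`c' s(w₁, w₂) = α`.  `Saturated` gives a rainbow `K` of order `r` in `G ⊔ edge w₁ w₂`; it contains `w₁`
and `w₂` (otherwise it is rainbow in `G` with `c`).  Put `T = K \ {w₁, w₂}`.  For `x ∈ T`: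
`w₁ ~ x`, `w₂ ~ x` in `G`, so `x ∈ A`; different edges of `K` have different colours under `c'`, so
`c(w₁ x) ≠ c(w₂ x)`, `c(w₁ x) ≠ α`, `c(w₁ x) ≠ c(w₁ y)` for `y ∈ T`, `y ≠ x`, and `c(p q) ≠ α` for
`p ≠ q` in `T`.
(b) For a vertex `x₀ ∈ A''` use (a) with `α = c(w₁ x₀)`: then `x₀ ∉ T`.
(c) `G''` has no rainbow `K_(r-1)`: let `R` be one.  `insert w₁ R` is a clique of order `r` of `G`
(`w₁ ∉ A`), so it is not rainbow: two different edges of it have the same colour.  They are not both in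
`R`; they are not `w₁ x`, `w₁ y` (adjacency in `G''`); so `c(w₁ x) = c(p q)` with `x, p, q ∈ R`,
`p ≠ q`.  By the same type `c(w₂ x) = c(p q) = c(w₁ x)`, against `x ∈ A''`. -/
def SpecTWO : Prop :=
  ∀ (V : Type) [DecidableEq V] (r : ℕ) (G : SimpleGraph V) (c : Sym2 V → ℕ), 3 ≤ r →
    Saturated r G c → ∀ (w₁ w₂ : V) (A : Finset V), w₁ ≠ w₂ → ¬ G.Adj w₁ w₂ →
    (∀ x, x ∈ A ↔ G.Adj w₁ x ∧ G.Adj w₂ x) → SameType G c A w₁ w₂ →
    ar r ≤ (A.filter fun x => c s(w₁, x) ≠ c s(w₂, x)).card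

/-- STP (deps: TYP, TWO; 150 lines).  One step in the construction of `Q`.
Proof.  Let `𝒲` be the set of the `w ∉ Q` of degree at most `D` with `nb G Q w < a`.  Let `W' ⊆ 𝒲`
have the most elements among the subsets such that any two different `w, w' ∈ W'` are not adjacent
and have common neighbours in `Q` only.  `|W'| ≤ M = 2 ^ (q + q ^ 2 + q ^ 3)`: otherwise TYP gives
`w₁ ≠ w₂` in `W'` of the same type with respect to `Q`; `A = {x ∈ Q | w₁ ~ x}` is the set of their
common neighbours and `A ⊆ Q`, so TWO gives `a ≤ |A| = nb G Q w₁ < a`.  Let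
`Q' = Q ∪ ⋃_(w ∈ W') ({w} ∪ N w)`, so `|Q'| ≤ q + (D + 1) M`.  Let `w ∉ Q'` have degree at most `D` and
`nb G Q w < a`, so `w ∈ 𝒲`, `w ∉ W'`.  By the choice of `W'` there is `w' ∈ W'` adjacent to `w`
(impossible: then `w ∈ Q'`) or with a common neighbour `x ∉ Q` of `w` and `w'`: then `x ∈ Q' \ Q`. -/
def SpecSTP : Prop :=
  ∀ (r D q : ℕ), 3 ≤ r → ∀ (V : Type) [Fintype V] [DecidableEq V] (G : SimpleGraph V)
    (c : Sym2 V → ℕ), Saturated r G c → ∀ Q : Finset V, Q.card ≤ q →
    ∃ Q' : Finset V, Q ⊆ Q' ∧ Q'.card ≤ q + (D + 1) * 2 ^ (q + q ^ 2 + q ^ 3) ∧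
      ∀ w, w ∉ Q' → nb G univ w ≤ D → nb G Q w < ar r → nb G Q w + 1 ≤ nb G Q' w

/-- QQQ (deps: STP; 70 lines).  A bounded set in which all vertices of small degree have at least `a`
neighbours.
Proof.  By induction on `j`: there is `q_j` such that for all saturated `G` there is `Q` with
`|Q| ≤ q_j` and `min j a ≤ nb G Q w` for all `w ∉ Q` of degree at most `D` (`j = 0`: `Q = ∅`; step: STP;
if `nb G Q w ≥ a` then `nb G Q' w ≥ nb G Q w ≥ a` as `Q ⊆ Q'`).  Take `j = a`. -/
def SpecQQQ : Prop :=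
  ∀ (r D : ℕ), 3 ≤ r → ∃ q₀ : ℕ, ∀ (V : Type) [Fintype V] [DecidableEq V] (G : SimpleGraph V)
    (c : Sym2 V → ℕ), Saturated r G c → ∃ Q : Finset V, Q.card ≤ q₀ ∧
      ∀ w, w ∉ Q → nb G univ w ≤ D → ar r ≤ nb G Q w

/-- LOW (deps: none; 150 lines).  Counting edges.
Proof.  `2 e = ∑_v deg v`, and `∑_(v ∈ Q) deg v ≥ ∑_(v ∈ Q) nb G Qᶜ v = ∑_(v ∉ Q) nb G Q v`, so
`2 e ≥ ∑_(v ∉ Q) (2 nb G Q v + nb G Qᶜ v)`, `deg v = nb G Q v + nb G Qᶜ v`.  For `v ∉ Q` the term is
at least `2 a`: clear if `nb G Q v ≥ a`; otherwise `deg v ≥ 2 a + 2` and the term is at least `deg v`.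
It is at least `2 a + 1` unless `v` is exact: `nb G Q v = a` and all neighbours of `v` are in `Q`.  So
`2 e ≥ 2 a (|V| - |Q|) + #(not exact)`. -/
def SpecLOW : Prop :=
  ∀ (V : Type) [Fintype V] [DecidableEq V] (G : SimpleGraph V) (Q : Finset V) (a : ℕ),
    (∀ w, w ∉ Q → nb G univ w ≤ 2 * a + 1 → a ≤ nb G Q w) →
    a * Fintype.card V ≤ G.edgeSet.ncard + a * Q.card ∧
    (G.edgeSet.ncard ≤ a * Fintype.card V → ∃ W : Finset V,
      Fintype.card V ≤ W.card + Q.card + 2 * a * Q.card ∧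
      ∀ w ∈ W, w ∉ Q ∧ nb G Q w = a ∧ ∀ x, G.Adj w x → x ∈ Q)

/-- CLO (deps: none; 280 lines).  Cloning.
Proof.  Let `M` be at least all `c e` (`V` is finite).  `G'` on `Option V`: `some u ~ some v` iff
`u ~ v`; `none ~ some x` iff `x ∈ A`.  `c' s(some u, some v) = c s(u, v)`,
`c' s(none, some x) = M + 1 + c(w₁ x)` (all other values irrelevant).
(i) No rainbow `K_r`: let `K` be one.  If `none ∉ K` it is one of `G`.  Else `K \ {none}` is a set `R`
of `r - 1` elements of `A`, a rainbow clique, and `c(w₁ x) ≠ c(w₁ y)` for `x ≠ y` in `R`.  `w₁ ∉ A`, and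
`insert w₁ R` is a clique of order `r`, rainbow because `c(w₁ x) ≠ c(p q)` for `x, p, q ∈ A`, `p ≠ q`.
(ii) A non-edge `some u, some v` with any colour: `Saturated` for `G`, mapped by `some`.
(iii) A non-edge `none, some v`, `v ∉ A`, colour `α = c'' s(none, some v)`.  Let `w ∈ {w₁, w₂}`,
`w ≠ v`; `w, v` are not adjacent.  If `α = M + 1 + c(w₁ x₀)` for some `x₀ ∈ A` let `β = c(w x₀)`, else
`β = α`.  `Saturated` for `w, v`, colour `β`, gives a rainbow `K ∋ w, v`; `T = K \ {w, v} ⊆ A`.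
`{none, some v} ∪ some T` is rainbow in `G' ⊔ edge`: the colours `M + 1 + c(w₁ x)`, `x ∈ T`, are
different because the `c(w x)` are (for `w = w₂` use the hypothesis on the types), they are larger
than the colours `≤ M` of the edges in `T ∪ {v}`, which are different; `α ≠ M + 1 + c(w₁ x)` for
`x ∈ T`: otherwise there is `x₀` with `c(w₁ x₀) = c(w₁ x)`, so `c(w x) = c(w x₀) = β`, but `w x` and
`w v` have different colours in `K`; `α` is not the colour of an edge in `T ∪ {v}`: if `α ≤ M` then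
`β = α`; otherwise `α > M`.
(iv) The edges of `G'` are the images of the edges of `G` and the `s(none, some x)`, `x ∈ A`. -/
def SpecCLO : Prop :=
  ∀ (V : Type) [Fintype V] [DecidableEq V] (r : ℕ) (G : SimpleGraph V) (c : Sym2 V → ℕ), 3 ≤ r →
    Saturated r G c → ∀ (w₁ w₂ : V) (A : Finset V), w₁ ≠ w₂ → (∀ x, G.Adj w₁ x ↔ x ∈ A) →
    (∀ x, G.Adj w₂ x ↔ x ∈ A) →
    (∀ x ∈ A, ∀ y ∈ A, (c s(w₁, x) = c s(w₁, y) ↔ c s(w₂, x) = c s(w₂, y))) →
    (∀ x ∈ A, ∀ p ∈ A, ∀ q ∈ A, p ≠ q → c s(w₁, x) ≠ c s(p, q)) →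
    ∃ (G' : SimpleGraph (Option V)) (c' : Sym2 (Option V) → ℕ), Saturated r G' c' ∧
      G'.edgeSet.ncard = G.edgeSet.ncard + A.card

/-- TRS (deps: none; 80 lines).  Transport of `Saturated` and of the number of edges along an
equivalence, and `Nat.sInf_le`. -/
def SpecTRS : Prop :=
  ∀ (V : Type) [Fintype V] (r n : ℕ) (G : SimpleGraph V) (c : Sym2 V → ℕ), Fintype.card V = n →
    Saturated r G c → sat n r ≤ G.edgeSet.ncard ∧
      ∃ (G' : SimpleGraph (Fin n)) (c' : Sym2 (Fin n) → ℕ), Saturated r G' c' ∧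
        G'.edgeSet.ncard = G.edgeSet.ncard

/-- EXT (deps: none; 120 lines).  Every coloured graph without rainbow `K_r` extends to a saturated one.
Proof.  Among the pairs `(G, c)` with `G₀ ≤ G`, `c = c₀` on the edges of `G₀`, without rainbow `K_r`,
take one with the most edges (`V` is finite).  Let `u ≠ v` be not adjacent in `G` and let `c'` agree
with `c` off `s(u, v)`.  `(G ⊔ edge u v, c')` extends `(G₀, c₀)` (`s(u, v)` is not an edge of `G₀`) and
has more edges, so it has a rainbow `K_r`. -/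
def SpecEXT : Prop :=
  ∀ (V : Type) [Fintype V] [DecidableEq V] (r : ℕ) (G₀ : SimpleGraph V) (c₀ : Sym2 V → ℕ),
    ¬ HasRainbow G₀ c₀ r → ∃ (G : SimpleGraph V) (c : Sym2 V → ℕ), G₀ ≤ G ∧
      (∀ e ∈ G₀.edgeSet, c e = c₀ e) ∧ Saturated r G c

/-- JOI (deps: EXT; 250 lines).  A core and an independent set.
Proof.  `V = Fin k ⊕ Fin m`.  `G₀`: the core on `Fin k`, all edges between `Fin k` and `Fin m`, none in
`Fin m`.  `c₀`: the colours `c` on the core, and different colours `M + 1 + (injective)`, `M ≥` all `c e`,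
on the edges between the parts.  A rainbow `K_r` has at most one vertex in `Fin m`, so at least `r - 1`
in the core: these contain a rainbow `K_(r-1)` of the core.  So there is none; let `(G, c')` be the
extension of EXT.  In `G` no two vertices `u ≠ v` of `Fin m` are adjacent: let `α = c' s(u, v)`.  There
is a rainbow clique `T` of the core of order `r - 2` such that `{u, v} ∪ T` is rainbow in `(G, c')`: if
`α` is the colour of one of the edges between `T`-candidates and `u` or `v`, say `α = c₀(u x)` or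
`c₀(v x)` with `x` in the core, take `T` without `x` (its other colours between the parts are
different from `α`, and the colours inside the core are `≤ M < α`); otherwise take `T` without the
colour `α`.  This contradicts that `G` has no rainbow `K_r`.  So every edge of `G` has an end in the
core and there are at most `k m + k (k - 1) / 2 ≤ k (k + m)` of them. -/
def SpecJOI : Prop :=
  ∀ (r k m : ℕ) (G : SimpleGraph (Fin k)) (c : Sym2 (Fin k) → ℕ), 3 ≤ r → IsCore r G c →
    ∃ (G' : SimpleGraph (Fin k ⊕ Fin m)) (c' : Sym2 (Fin k ⊕ Fin m) → ℕ),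
      Saturated r G' c' ∧ G'.edgeSet.ncard ≤ k * (k + m)

/-- UPP (deps: EXC, TRS, JOI; 80 lines).
Proof.  If `n < a`: the complete graph with one colour is saturated (a rainbow `K_r`, `r ≥ 3`, has two
different edges) and has at most `n (n - 1) / 2 ≤ a n` edges.  If `n ≥ a`: `ar r` is the order of a core
(`Nat.sInf_mem`, EXC); JOI with `k = a`, `m = n - a`, and TRS. -/
def SpecUPP : Prop :=
  ∀ (r n : ℕ), 3 ≤ r → ∃ (G : SimpleGraph (Fin n)) (c : Sym2 (Fin n) → ℕ), Saturated r G c ∧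
    G.edgeSet.ncard = sat n r ∧ sat n r ≤ ar r * n

/-- MON (deps: TYP, TWO, QQQ, LOW, CLO, TRS, UPP; 150 lines).
Proof.  Let `q₀` be as in QQQ for `D = 2 a + 1` and `n ≥ n₀ = q₀ + 2 a q₀ + 2 ^ (q₀ + q₀² + q₀³) + 1`.  Let
`(G, c)` be saturated on `Fin n` with `sat n r ≤ a n` edges (UPP), `Q` from QQQ, `W` from LOW:
`|W| > 2 ^ (|Q| + |Q|² + |Q|³)`.  TYP: `w₁ ≠ w₂` in `W` of the same type with respect to `Q`.  Let
`A = {x ∈ Q | w₁ ~ x}`; it has `a` elements and is the set of all neighbours of `w₁` and of `w₂`, which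
are not adjacent (`w₂ ∉ Q`).  By TWO the set of the `x ∈ A` with `c(w₁ x) ≠ c(w₂ x)` has at least `a`
elements, so this holds for all `x ∈ A`.  If `c(w₁ x) = c(p q)` with `p, q ∈ A` then
`c(w₂ x) = c(p q) = c(w₁ x)`, a contradiction.  CLO and TRS (`Option (Fin n)` has `n + 1`
elements). -/
def SpecMON : Prop :=
  ∀ r : ℕ, 3 ≤ r → ∃ n₀ : ℕ, ∀ n, n₀ ≤ n → sat (n + 1) r ≤ sat n r + ar r

/-- FIN (deps: QQQ, LOW, UPP, MON; 70 lines).
Proof.  The integers `f n = sat n r - a n`, `n ≥ n₀`, are nonincreasing by MON and at least `- a q₀` by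
QQQ (`D = 2 a + 1`) and LOW for the graph of UPP.  So they are eventually constant. -/
def SpecFIN : Prop :=
  ∀ r : ℕ, 3 ≤ r → ∃ (C : ℤ) (n₀ : ℕ), ∀ n : ℕ, n₀ ≤ n → (sat n r : ℤ) = ar r * n + C

end Pool.Agent.Lib.MP44a765.EV
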