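import Pool.Agent.Lib.MP_44a765_co.EV.Spec

/-!
# TRC: transport of a core
-/

set_option autoImplicit false

open Finset

namespace Pool.Agent.Lib.MP44a765.EV

namespace TRCM

lemma sym2_eq {V W : Type} (e : V ≃ W) (a b a' b' : W) :
    s(e.symm a, e.symm b) = s(e.symm a', e.symm b') ↔ s(a, b) = s(a', b') := by
  rw [Sym2.eq_iff, Sym2.eq_iff]
  simp only [EmbeddingLike.apply_eq_iff_eq]

lemma rc_iff {V W : Type} (e : V ≃ W) (G : SimpleGraph V) (c : Sym2 V → ℕ) (K : Finset W) :
    RainbowClique (G.comap e.symm) (fun s => c (s.map e.symm)) K ↔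
      RainbowClique G c (K.map e.symm.toEmbedding) := by
  constructor
  · rintro ⟨h1, h2⟩
    refine ⟨?_, ?_⟩
    · intro a ha b hb hab
      obtain ⟨a, ka, rfl⟩ := Finset.mem_map.1 ha
      obtain ⟨b, kb, rfl⟩ := Finset.mem_map.1 hb
      exact h1 a ka b kb (fun h => hab (by rw [h]))
    · intro a ha b hb a' ha' b' hb' hab hab' h
      obtain ⟨a, ka, rfl⟩ := Finset.mem_map.1 ha
      obtain ⟨b, kb, rfl⟩ := Finset.mem_map.1 hb
      obtain ⟨a', ka', rfl⟩ := Finset.mem_map.1 ha'
      obtain ⟨b', kb', rfl⟩ := Finset.mem_map.1 hb'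
      exact (sym2_eq e a b a' b').2 (h2 a ka b kb a' ka' b' kb' (fun h => hab (by rw [h]))
        (fun h => hab' (by rw [h])) h)
  · rintro ⟨h1, h2⟩
    have hm : ∀ a ∈ K, e.symm a ∈ K.map e.symm.toEmbedding := fun a ha =>
      Finset.mem_map.2 ⟨a, ha, rfl⟩
    refine ⟨?_, ?_⟩
    · intro a ha b hb hab
      exact h1 _ (hm a ha) _ (hm b hb) (fun h => hab (e.symm.injective h))
    · intro a ha b hb a' ha' b' hb' hab hab' h
      exact (sym2_eq e a b a' b').1 (h2 _ (hm a ha) _ (hm b hb) _ (hm a' ha') _ (hm b' hb')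
        (fun h => hab (e.symm.injective h)) (fun h => hab' (e.symm.injective h)) h)

lemma map_symm {V W : Type} (e : V ≃ W) (K : Finset V) :
    (K.map e.toEmbedding).map e.symm.toEmbedding = K := by
  ext x
  simp only [Finset.mem_map, Equiv.coe_toEmbedding, exists_exists_and_eq_and,
    Equiv.symm_apply_apply, exists_eq_right]

end TRCM

open TRCM in
theorem specTRC : SpecTRC := by
  intro V _ r G c hcore
  obtain ⟨h1, h2, h3⟩ := hcore
  have e : V ≃ Fin (Fintype.card V) := Fintype.equivFin V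
  refine Nat.sInf_le ⟨G.comap e.symm, fun s => c (s.map e.symm), ?_, ?_, ?_⟩
  · rintro ⟨K, hK, hr⟩
    exact h1 ⟨K.map e.symm.toEmbedding, by rw [Finset.card_map, hK], (rc_iff e G c K).1 hr⟩
  · intro x
    obtain ⟨K, hK, hr, hx⟩ := h2 (e.symm x)
    refine ⟨K.map e.toEmbedding, by rw [Finset.card_map, hK], ?_, ?_⟩
    · rw [rc_iff, map_symm]
      exact hr
    · intro h
      obtain ⟨y, hy, hyx⟩ := Finset.mem_map.1 h
      apply hx
      rw [← hyx]
      simpa using hy
  · intro α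
    obtain ⟨K, hK, hr, hx⟩ := h3 α
    refine ⟨K.map e.toEmbedding, by rw [Finset.card_map, hK], ?_, ?_⟩
    · rw [rc_iff, map_symm]
      exact hr
    · intro p hp q hq hpq
      obtain ⟨p, hp', rfl⟩ := Finset.mem_map.1 hp
      obtain ⟨q, hq', rfl⟩ := Finset.mem_map.1 hq
      have h4 := hx p hp' q hq' (fun h => hpq (by rw [h]))
      have h5 : (s(e.toEmbedding p, e.toEmbedding q) : Sym2 (Fin (Fintype.card V))).map e.symm =
          s(p, q) := by
        rw [Sym2.map_mk]
        simp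
      show c ((s(e.toEmbedding p, e.toEmbedding q) : Sym2 (Fin (Fintype.card V))).map e.symm) ≠ α
      rw [h5]
      exact h4

end Pool.Agent.Lib.MP44a765.EV
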