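import Pool.Agent.Lib.MP_44a765_co.EV.Spec

/-!
# TRS: transport of saturated graphs along an equivalence
-/

set_option autoImplicit false

open Finset

namespace Pool.Agent.Lib.MP44a765.EV

namespace TRSM

theorem map_map_symm {V W : Type} (e : V ≃ W) (s : Sym2 W) : (s.map e.symm).map e = s := by
  induction s with
  | _ x y => simp

theorem hr {V W : Type} {r : ℕ} (e : V ≃ W) {G : SimpleGraph V} {c : Sym2 V → ℕ}
    {G' : SimpleGraph W} {c' : Sym2 W → ℕ} (hG : ∀ a b, G'.Adj (e a) (e b) ↔ G.Adj a b)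
    (hc : ∀ s, c' (s.map e) = c s) (h : HasRainbow G c r) : HasRainbow G' c' r := by
  obtain ⟨K, hK, h1, h2⟩ := h
  refine ⟨K.map e.toEmbedding, by rw [card_map, hK], ?_, ?_⟩
  · intro a ha b hb hab
    obtain ⟨x, hx, rfl⟩ := mem_map.1 ha
    obtain ⟨y, hy, rfl⟩ := mem_map.1 hb
    exact (hG x y).2 (h1 x hx y hy fun h => hab (by rw [h]))
  · intro a ha b hb a' ha' b' hb' hab hab' hcc
    obtain ⟨x, hx, rfl⟩ := mem_map.1 ha
    obtain ⟨y, hy, rfl⟩ := mem_map.1 hb
    obtain ⟨x', hx', rfl⟩ := mem_map.1 ha'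
    obtain ⟨y', hy', rfl⟩ := mem_map.1 hb'
    have e1 : c' s(e x, e y) = c s(x, y) := hc s(x, y)
    have e2 : c' s(e x', e y') = c s(x', y') := hc s(x', y')
    have h3 : c s(x, y) = c s(x', y') := e1.symm.trans (Eq.trans hcc e2)
    have h4 := h2 x hx y hy x' hx' y' hy' (fun h => hab (by rw [h])) (fun h => hab' (by rw [h])) h3
    exact congrArg (Sym2.map e) h4

theorem st {V W : Type} {r : ℕ} (e : V ≃ W) {G : SimpleGraph V} {c : Sym2 V → ℕ}
    {G' : SimpleGraph W} {c' : Sym2 W → ℕ} (hG : ∀ a b, G'.Adj (e a) (e b) ↔ G.Adj a b)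
    (hc : ∀ s, c' (s.map e) = c s) (h : Saturated r G c) : Saturated r G' c' := by
  refine ⟨fun hR => h.1 ?_, ?_⟩
  · refine hr e.symm (fun a b => ?_) (fun s => ?_) hR
    · rw [← hG, e.apply_symm_apply, e.apply_symm_apply]
    · rw [← hc, map_map_symm]
  · intro u v huv hadj d hd
    have h1 := h.2 (e.symm u) (e.symm v) (fun h => huv (e.symm.injective h))
      (fun h => hadj (by
        have h2 := (hG _ _).2 h
        rwa [e.apply_symm_apply, e.apply_symm_apply] at h2)) (fun s => d (s.map e)) (fun s hs => by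
        have h2 : s.map e ≠ s(u, v) := by
          intro h3
          apply hs
          have h4 : (s.map e).map e.symm = s := map_map_symm e.symm s
          rw [← h4, h3]
          rfl
        show d (s.map e) = c s
        rw [hd _ h2, hc])
    refine hr e (fun a b => ?_) (fun s => rfl) h1
    rw [SimpleGraph.sup_adj, SimpleGraph.sup_adj, hG, SimpleGraph.edge_adj, SimpleGraph.edge_adj]
    simp only [e.eq_symm_apply, ne_eq, e.apply_eq_iff_eq]

end TRSM

open TRSM in
theorem specTRS : SpecTRS := by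
  intro V _ r n G c hn h
  obtain ⟨e⟩ : Nonempty (V ≃ Fin n) := ⟨Fintype.equivFinOfCardEq hn⟩
  have hG : ∀ a b, (G.comap e.symm).Adj (e a) (e b) ↔ G.Adj a b := by
    intro a b
    rw [SimpleGraph.comap_adj, e.symm_apply_apply, e.symm_apply_apply]
  have hc : ∀ s : Sym2 V, (fun s : Sym2 (Fin n) => c (s.map e.symm)) (s.map e) = c s := by
    intro s
    exact congrArg c (map_map_symm e.symm s)
  have hs : Saturated r (G.comap e.symm) (fun s : Sym2 (Fin n) => c (s.map e.symm)) :=
    st (c' := fun s : Sym2 (Fin n) => c (s.map e.symm)) e hG hc h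
  have hcard : (G.comap e.symm).edgeSet.ncard = G.edgeSet.ncard := by
    have h1 : (G.comap e.symm).edgeSet = Sym2.map e '' G.edgeSet := by
      ext s
      induction s with
      | _ x y =>
        rw [SimpleGraph.mem_edgeSet, SimpleGraph.comap_adj]
        constructor
        · intro h
          exact ⟨s(e.symm x, e.symm y), h, by simp⟩
        · rintro ⟨t, ht, hts⟩
          have h2 : t = s(e.symm x, e.symm y) := by
            have h3 : (t.map e).map e.symm = t := map_map_symm e.symm t
            rw [← h3, hts]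
            rfl
          rw [h2] at ht
          exact ht
    rw [h1, Set.ncard_image_of_injective _ (Sym2.map.injective e.injective)]
  exact ⟨Nat.sInf_le ⟨_, _, hs, hcard⟩, _, _, hs, hcard⟩

end Pool.Agent.Lib.MP44a765.EV
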