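import Pool.Agent.Lib.MP_44a765_co.EV.Spec

/-!
# TWO: two nonadjacent vertices of the same type give a core
-/

set_option autoImplicit false

open Finset

namespace Pool.Agent.Lib.MP44a765.EV

namespace TWOM

variable {V : Type} [DecidableEq V]

/-- the clique of order `r - 2` for the colour `α` -/
lemma key {r : ℕ} {G : SimpleGraph V} {c : Sym2 V → ℕ} (hs : Saturated r G c) {w₁ w₂ : V}
    (hne : w₁ ≠ w₂) (hna : ¬ G.Adj w₁ w₂) (α : ℕ) :
    ∃ T : Finset V, T.card = r - 2 ∧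
      (∀ x ∈ T, G.Adj w₁ x ∧ G.Adj w₂ x ∧ c s(w₁, x) ≠ c s(w₂, x) ∧ c s(w₁, x) ≠ α) ∧
      (∀ x ∈ T, ∀ y ∈ T, x ≠ y → G.Adj x y ∧ c s(w₁, x) ≠ c s(w₁, y) ∧ c s(x, y) ≠ α) ∧
      ∀ a ∈ T, ∀ b ∈ T, ∀ a' ∈ T, ∀ b' ∈ T, a ≠ b → a' ≠ b' →
        c s(a, b) = c s(a', b') → s(a, b) = s(a', b') := by
  classical
  set c' : Sym2 V → ℕ := Function.update c s(w₁, w₂) α with hc'
  have hc1 : ∀ e, e ≠ s(w₁, w₂) → c' e = c e := fun e he => Function.update_of_ne he _ _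
  have hc2 : c' s(w₁, w₂) = α := Function.update_self _ _ _
  obtain ⟨K, hK, hK1, hK2⟩ := hs.2 w₁ w₂ hne hna c' hc1
  have hadj : ∀ a ∈ K, ∀ b ∈ K, a ≠ b → s(a, b) ≠ s(w₁, w₂) → G.Adj a b := by
    intro a ha b hb hab h
    rcases (SimpleGraph.sup_adj _ _ _ _).1 (hK1 a ha b hb hab) with h1 | h1
    · exact h1
    · exfalso
      rw [SimpleGraph.edge_adj] at h1
      exact h (Sym2.eq_iff.2 h1.1)
  have hw : ∀ w, (w = w₁ ∨ w = w₂) → w ∈ K := by
    intro w hw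
    by_contra hwK
    have hn : ∀ a ∈ K, ∀ b ∈ K, s(a, b) ≠ s(w₁, w₂) := by
      intro a ha b hb h
      rcases Sym2.eq_iff.1 h with ⟨h1, h2⟩ | ⟨h1, h2⟩
      · rcases hw with hw | hw
        · exact hwK (by rw [hw, ← h1]; exact ha)
        · exact hwK (by rw [hw, ← h2]; exact hb)
      · rcases hw with hw | hw
        · exact hwK (by rw [hw, ← h2]; exact hb)
        · exact hwK (by rw [hw, ← h1]; exact ha)
    refine hs.1 ⟨K, hK, fun a ha b hb hab => hadj a ha b hb hab (hn a ha b hb), ?_⟩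
    intro a ha b hb a' ha' b' hb' hab hab' h
    refine hK2 a ha b hb a' ha' b' hb' hab hab' ?_
    rw [hc1 _ (hn a ha b hb), hc1 _ (hn a' ha' b' hb'), h]
  have h1K : w₁ ∈ K := hw w₁ (Or.inl rfl)
  have h2K : w₂ ∈ K := hw w₂ (Or.inr rfl)
  have n1 : ∀ x, x ≠ w₂ → s(w₁, x) ≠ s(w₁, w₂) := by
    intro x hx h
    exact hx (Sym2.congr_right.1 h)
  have n2 : ∀ x, x ≠ w₁ → s(w₂, x) ≠ s(w₁, w₂) := by
    intro x hx h
    rw [Sym2.eq_swap (a := w₁)] at h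
    exact hx (Sym2.congr_right.1 h)
  have n3 : ∀ x y, x ≠ w₁ → x ≠ w₂ → s(x, y) ≠ s(w₁, w₂) := by
    intro x y hx1 hx2 h
    rcases Sym2.eq_iff.1 h with ⟨h1, -⟩ | ⟨h1, -⟩
    · exact hx1 h1
    · exact hx2 h1
  have hT : ∀ x ∈ (K.erase w₁).erase w₂, x ∈ K ∧ x ≠ w₁ ∧ x ≠ w₂ := by
    intro x hx
    rw [mem_erase, mem_erase] at hx
    exact ⟨hx.2.2, hx.2.1, hx.1⟩
  refine ⟨(K.erase w₁).erase w₂, ?_, ?_, ?_, ?_⟩
  · rw [card_erase_of_mem (mem_erase.2 ⟨hne.symm, h2K⟩), card_erase_of_mem h1K, hK]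
    omega
  · intro x hx
    obtain ⟨hxK, hx1, hx2⟩ := hT x hx
    refine ⟨hadj w₁ h1K x hxK hx1.symm (n1 x hx2), hadj w₂ h2K x hxK hx2.symm (n2 x hx1), ?_, ?_⟩
    · intro h
      have h1 := hK2 w₁ h1K x hxK w₂ h2K x hxK hx1.symm hx2.symm (by
        rw [hc1 _ (n1 x hx2), hc1 _ (n2 x hx1), h])
      exact hne (Sym2.congr_left.1 h1)
    · intro h
      have h1 := hK2 w₁ h1K x hxK w₁ h1K w₂ h2K hx1.symm hne (by
        rw [hc1 _ (n1 x hx2), hc2, h])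
      exact hx2 (Sym2.congr_right.1 h1)
  · intro x hx y hy hxy
    obtain ⟨hxK, hx1, hx2⟩ := hT x hx
    obtain ⟨hyK, hy1, hy2⟩ := hT y hy
    refine ⟨hadj x hxK y hyK hxy (n3 x y hx1 hx2), ?_, ?_⟩
    · intro h
      have h1 := hK2 w₁ h1K x hxK w₁ h1K y hyK hx1.symm hy1.symm (by
        rw [hc1 _ (n1 x hx2), hc1 _ (n1 y hy2), h])
      exact hxy (Sym2.congr_right.1 h1)
    · intro h
      have h1 := hK2 x hxK y hyK w₁ h1K w₂ h2K hxy hne (by
        rw [hc1 _ (n3 x y hx1 hx2), hc2, h])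
      exact n3 x y hx1 hx2 h1
  · intro a ha b hb a' ha' b' hb' hab hab' h
    obtain ⟨haK, ha1, ha2⟩ := hT a ha
    obtain ⟨hbK, -, -⟩ := hT b hb
    obtain ⟨haK', ha1', ha2'⟩ := hT a' ha'
    obtain ⟨hbK', -, -⟩ := hT b' hb'
    refine hK2 a haK b hbK a' haK' b' hbK' hab hab' ?_
    rw [hc1 _ (n3 a b ha1 ha2), hc1 _ (n3 a' b' ha1' ha2'), h]

end TWOM

open TWOM in
theorem specTWO (hTRC : SpecTRC) : SpecTWO := by
  intro V _ r G c hr hs w₁ w₂ A hne hna hA hty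
  set A' : Finset V := A.filter fun x => c s(w₁, x) ≠ c s(w₂, x) with hA'
  let G' : SimpleGraph {x // x ∈ A'} :=
    { Adj := fun x y => G.Adj x.1 y.1 ∧ c s(w₁, x.1) ≠ c s(w₁, y.1)
      symm := ⟨fun x y h => ⟨h.1.symm, h.2.symm⟩⟩
      loopless := ⟨fun x h => h.2 rfl⟩ }
  have hadj : ∀ x y : {x // x ∈ A'}, G'.Adj x y ↔ G.Adj x.1 y.1 ∧ c s(w₁, x.1) ≠ c s(w₁, y.1) :=
    fun x y => Iff.rfl
  let c' : Sym2 {x // x ∈ A'} → ℕ := fun e => c (e.map Subtype.val)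
  have hc' : ∀ x y : {x // x ∈ A'}, c' s(x, y) = c s(x.1, y.1) := fun x y => rfl
  have hval : ∀ a b a' b' : {x // x ∈ A'}, s(a.1, b.1) = s(a'.1, b'.1) → s(a, b) = s(a', b') := by
    intro a b a' b' h
    rcases Sym2.eq_iff.1 h with ⟨h1, h2⟩ | ⟨h1, h2⟩
    · rw [Subtype.ext h1, Subtype.ext h2]
    · rw [Subtype.ext h1, Subtype.ext h2, Sym2.eq_swap]
  -- the cliques
  have hkey : ∀ α : ℕ, ∃ K : Finset {x // x ∈ A'}, K.card = r - 2 ∧ RainbowClique G' c' K ∧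
      (∀ x ∈ K, c s(w₁, x.1) ≠ α) ∧ ∀ p ∈ K, ∀ q ∈ K, p ≠ q → c' s(p, q) ≠ α := by
    intro α
    obtain ⟨T, hT, h1, h2, h3⟩ := key hs hne hna α
    have hTA : ∀ x ∈ T, x ∈ A' := by
      intro x hx
      obtain ⟨k1, k2, k3, -⟩ := h1 x hx
      exact mem_filter.2 ⟨(hA x).2 ⟨k1, k2⟩, k3⟩
    have hv : ∀ x : {x // x ∈ A'}, x ∈ T.subtype (fun x => x ∈ A') ↔ x.1 ∈ T := fun x =>
      mem_subtype
    refine ⟨T.subtype (fun x => x ∈ A'), ?_, ⟨?_, ?_⟩, ?_, ?_⟩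
    · rw [card_subtype, filter_true_of_mem hTA, hT]
    · intro a ha b hb hab
      have := h2 a.1 ((hv a).1 ha) b.1 ((hv b).1 hb) (fun h => hab (Subtype.ext h))
      exact ⟨this.1, this.2.1⟩
    · intro a ha b hb a' ha' b' hb' hab hab' h
      rw [hc', hc'] at h
      exact hval _ _ _ _ (h3 a.1 ((hv a).1 ha) b.1 ((hv b).1 hb) a'.1 ((hv a').1 ha') b'.1
        ((hv b').1 hb') (fun h => hab (Subtype.ext h)) (fun h => hab' (Subtype.ext h)) h)
    · intro x hx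
      exact (h1 x.1 ((hv x).1 hx)).2.2.2
    · intro p hp q hq hpq
      rw [hc']
      exact (h2 p.1 ((hv p).1 hp) q.1 ((hv q).1 hq) (fun h => hpq (Subtype.ext h))).2.2
  have hcore : IsCore r G' c' := by
    refine ⟨?_, ?_, ?_⟩
    · rintro ⟨R, hR, hR1, hR2⟩
      have hwA : w₁ ∉ A := fun h => G.loopless.irrefl w₁ ((hA w₁).1 h).1
      let e : {x // x ∈ A'} ↪ V := ⟨Subtype.val, Subtype.val_injective⟩
      have hwR : w₁ ∉ R.map e := by
        intro h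
        obtain ⟨x, -, hx⟩ := mem_map.1 h
        have hx' : x.1 = w₁ := hx
        exact hwA (hx' ▸ (mem_filter.1 x.2).1)
      have hcase : ∀ a ∈ insert w₁ (R.map e), ∀ b ∈ insert w₁ (R.map e), a ≠ b →
          (∃ x ∈ R, ∃ y ∈ R, x ≠ y ∧ a = x.1 ∧ b = y.1) ∨ ∃ x ∈ R, s(a, b) = s(w₁, x.1) := by
        intro a ha b hb hab
        rcases mem_insert.1 ha with ha | ha
        · rcases mem_insert.1 hb with hb | hb
          · exact absurd (ha.trans hb.symm) hab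
          · obtain ⟨y, hy, hyb⟩ := mem_map.1 hb
            have hyb' : y.1 = b := hyb
            exact Or.inr ⟨y, hy, by rw [ha, hyb']⟩
        · obtain ⟨x, hx, hxa⟩ := mem_map.1 ha
          have hxa' : x.1 = a := hxa
          rcases mem_insert.1 hb with hb | hb
          · exact Or.inr ⟨x, hx, by rw [hb, hxa', Sym2.eq_swap]⟩
          · obtain ⟨y, hy, hyb⟩ := mem_map.1 hb
            have hyb' : y.1 = b := hyb
            exact Or.inl ⟨x, hx, y, hy, fun h => hab (by rw [← hxa', ← hyb', h]), hxa'.symm,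
              hyb'.symm⟩
      have hA1 : ∀ x : {x // x ∈ A'}, x.1 ∈ A ∧ c s(w₁, x.1) ≠ c s(w₂, x.1) := fun x =>
        mem_filter.1 x.2
      have hmix : ∀ x ∈ R, ∀ p ∈ R, ∀ q ∈ R, c s(w₁, x.1) ≠ c s(p.1, q.1) := by
        intro x _ p _ q _ h
        have h1 := (hty.2.2 x.1 (hA1 x).1 p.1 (hA1 p).1 q.1 (hA1 q).1).1 h
        exact (hA1 x).2 (h.trans h1.symm)
      refine hs.1 ⟨insert w₁ (R.map e), ?_, ?_, ?_⟩
      · rw [card_insert_of_notMem hwR, card_map, hR]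
        omega
      · intro a ha b hb hab
        rcases hcase a ha b hb hab with ⟨x, hx, y, hy, hxy, rfl, rfl⟩ | ⟨x, hx, h⟩
        · exact ((hadj x y).1 (hR1 x hx y hy hxy)).1
        · have h1 : G.Adj w₁ x.1 := ((hA x.1).1 (hA1 x).1).1
          rcases Sym2.eq_iff.1 h with ⟨h2, h3⟩ | ⟨h2, h3⟩
          · rw [h2, h3]
            exact h1
          · rw [h2, h3]
            exact h1.symm
      · intro a ha b hb a' ha' b' hb' hab hab' h
        rcases hcase a ha b hb hab with ⟨x, hx, y, hy, hxy, rfl, rfl⟩ | ⟨x, hx, h1⟩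
        · rcases hcase a' ha' b' hb' hab' with ⟨x', hx', y', hy', hxy', rfl, rfl⟩ | ⟨x', hx', h1'⟩
          · have h2 := hR2 x hx y hy x' hx' y' hy' hxy hxy' h
            rcases Sym2.eq_iff.1 h2 with ⟨h3, h4⟩ | ⟨h3, h4⟩
            · rw [h3, h4]
            · rw [h3, h4, Sym2.eq_swap]
          · rw [h1'] at h
            exact absurd h.symm (hmix x' hx' x hx y hy)
        · rcases hcase a' ha' b' hb' hab' with ⟨x', hx', y', hy', hxy', rfl, rfl⟩ | ⟨x', hx', h1'⟩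
          · rw [h1] at h
            exact absurd h (hmix x hx x' hx' y' hy')
          · rw [h1, h1'] at h ⊢
            by_cases hxx : x = x'
            · rw [hxx]
            · exact absurd h ((hadj x x').1 (hR1 x hx x' hx' hxx)).2
    · intro x₀
      obtain ⟨K, hK, hr', h1, -⟩ := hkey (c s(w₁, x₀.1))
      exact ⟨K, hK, hr', fun h => h1 x₀ h rfl⟩
    · intro α
      obtain ⟨K, hK, hr', -, h2⟩ := hkey α
      exact ⟨K, hK, hr', h2⟩
  have h := hTRC {x // x ∈ A'} r G' c' hcore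
  rwa [Fintype.card_coe] at h

end Pool.Agent.Lib.MP44a765.EV
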