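import Pool.Agent.Lib.MP_44a765_co.EV.Spec

/-!
# MP_44a765_co, module TYP: pigeonhole for the types
-/

set_option autoImplicit false

open Finset

namespace Pool.Agent.Lib.MP44a765.EV

open Classical in
theorem specTYP : SpecTYP := by
  intro V _ G c Q W hW
  let F : V → Finset V × Finset (V × V) × Finset (V × V × V) := fun w =>
    (Q.filter fun x => G.Adj w x,
      (Q ×ˢ Q).filter fun z => c s(w, z.1) = c s(w, z.2),
      (Q ×ˢ Q ×ˢ Q).filter fun z => c s(w, z.1) = c s(z.2.1, z.2.2))
  let T : Finset (Finset V × Finset (V × V) × Finset (V × V × V)) :=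
    Q.powerset ×ˢ (Q ×ˢ Q).powerset ×ˢ (Q ×ˢ Q ×ˢ Q).powerset
  have hT : T.card = 2 ^ (Q.card + Q.card ^ 2 + Q.card ^ 3) := by
    simp only [T, card_product, card_powerset]
    rw [← pow_add, ← pow_add]
    congr 1
    ring
  obtain ⟨w₁, h1, w₂, h2, hne, hF⟩ := Finset.exists_ne_map_eq_of_card_lt_of_maps_to
    (s := W) (t := T) (f := F) (by rw [hT]; exact hW) (by
      intro w _
      simp only [T, F, mem_coe, mem_product, mem_powerset]
      exact ⟨filter_subset _ _, filter_subset _ _, filter_subset _ _⟩)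
  refine ⟨w₁, h1, w₂, h2, hne, ?_, ?_, ?_⟩
  · intro x hx
    have h := congrArg (fun z => x ∈ z.1) hF
    simp only [F, mem_filter, hx, true_and, eq_iff_iff] at h
    exact h
  · intro x hx y hy
    have h := congrArg (fun z => (x, y) ∈ z.2.1) hF
    simp only [F, mem_filter, mem_product, hx, hy, true_and, eq_iff_iff] at h
    exact h
  · intro x hx p hp q hq
    have h := congrArg (fun z => (x, p, q) ∈ z.2.2) hF
    simp only [F, mem_filter, mem_product, hx, hp, hq, true_and, eq_iff_iff] at h
    exact h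

end Pool.Agent.Lib.MP44a765.EV
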