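import Pool.Agent.Lib.MP_44a765_co.EV.Spec

/-!
# UPP: the upper bound `sat n r ≤ a n`
-/

set_option autoImplicit false

open Finset

namespace Pool.Agent.Lib.MP44a765.EV

namespace UPPM

lemma sat_top {n r : ℕ} (hr : 3 ≤ r) : Saturated r (⊤ : SimpleGraph (Fin n)) (fun _ => 0) := by
  refine ⟨?_, fun u v huv h => absurd ((SimpleGraph.top_adj u v).mpr huv) h⟩
  rintro ⟨K, hK, -, h⟩
  have h2 : 2 < K.card := by omega
  obtain ⟨a, b, d, ha, hb, hd, hab, had, hbd⟩ := Finset.two_lt_card_iff.mp h2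
  have h3 := h a ha b hb a ha d hd hab had rfl
  rw [Sym2.eq_iff] at h3
  rcases h3 with ⟨-, h4⟩ | ⟨h4, -⟩
  · exact hbd h4
  · exact had h4

lemma card_top (n : ℕ) : (⊤ : SimpleGraph (Fin n)).edgeSet.ncard ≤ n * n := by
  classical
  rw [Set.ncard_eq_toFinset_card']
  have h := SimpleGraph.card_edgeFinset_top_eq_card_choose_two (V := Fin n)
  rw [Fintype.card_fin] at h
  have h2 : (⊤ : SimpleGraph (Fin n)).edgeSet.toFinset.card = n.choose 2 := by
    rw [← h]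
    congr 1
  rw [h2, Nat.choose_two_right]
  exact le_trans (Nat.div_le_self _ _) (Nat.mul_le_mul_left n (Nat.sub_le n 1))

lemma exists_small (hEXC : SpecEXC) (hTRS : SpecTRS) (hJOI : SpecJOI) (r n : ℕ) (hr : 3 ≤ r) :
    ∃ (G : SimpleGraph (Fin n)) (c : Sym2 (Fin n) → ℕ), Saturated r G c ∧
      G.edgeSet.ncard ≤ ar r * n := by
  by_cases hn : n < ar r
  · exact ⟨⊤, fun _ => 0, sat_top hr,
      le_trans (card_top n) (Nat.mul_le_mul_right n hn.le)⟩
  · have hne : {k | ∃ (G : SimpleGraph (Fin k)) (c : Sym2 (Fin k) → ℕ), IsCore r G c}.Nonempty :=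
      ⟨_, hEXC r hr⟩
    obtain ⟨G, c, hc⟩ : ∃ (G : SimpleGraph (Fin (ar r))) (c : Sym2 (Fin (ar r)) → ℕ),
        IsCore r G c := Nat.sInf_mem hne
    obtain ⟨G', c', h1, h2⟩ := hJOI r (ar r) (n - ar r) G c hr hc
    have hcard : Fintype.card (Fin (ar r) ⊕ Fin (n - ar r)) = n := by
      rw [Fintype.card_sum, Fintype.card_fin, Fintype.card_fin]
      omega
    obtain ⟨-, G'', c'', h3, h4⟩ := hTRS _ r n G' c' hcard h1
    refine ⟨G'', c'', h3, ?_⟩
    rw [h4]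
    have h5 : ar r + (n - ar r) = n := by omega
    rwa [h5] at h2

end UPPM

open UPPM in
theorem specUPP (hEXC : SpecEXC) (hTRS : SpecTRS) (hJOI : SpecJOI) : SpecUPP := by
  intro r n hr
  obtain ⟨G, c, h1, h2⟩ := exists_small hEXC hTRS hJOI r n hr
  have hmem : G.edgeSet.ncard ∈ {k | ∃ (G : SimpleGraph (Fin n)) (c : Sym2 (Fin n) → ℕ),
      Saturated r G c ∧ G.edgeSet.ncard = k} := ⟨G, c, h1, rfl⟩
  obtain ⟨G', c', h3, h4⟩ := Nat.sInf_mem ⟨_, hmem⟩
  exact ⟨G', c', h3, h4, le_trans (Nat.sInf_le hmem) h2⟩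

end Pool.Agent.Lib.MP44a765.EV
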